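import Mathlib

/-!
# Generalised embedding schemes of graphs  (MP_d78700_co)

A scheme consists of a cyclic order of the darts at every vertex and of a twist on every edge.  The corners of the
scheme are identified with the darts (`d` is the corner between `d` and `rot d`), and the faces are the classes of corners
glued along the two sides of the edges.
-/

set_option autoImplicit false

namespace Pool.Agent.H41.TF

/-- a generalised embedding scheme (rotation system with twists) of a simple graph -/
structure Scheme {V : Type*} (G : SimpleGraph V) where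
  rot : Equiv.Perm G.Dart
  rot_fst : ∀ d, (rot d).fst = d.fst
  rot_cycle : ∀ d e : G.Dart, d.fst = e.fst → rot.SameCycle d e
  twisted : G.Dart → Prop
  twisted_symm : ∀ d, twisted d.symm ↔ twisted d

/-- gluing of corners along the sides of the edges -/
inductive Scheme.Glue {V : Type*} {G : SimpleGraph V} (S : Scheme G) : G.Dart → G.Dart → Prop
  | flat (d : G.Dart) : ¬ S.twisted d → Scheme.Glue S d (S.rot.symm d.symm)
  | twistAfter (d : G.Dart) : S.twisted d → Scheme.Glue S d d.symm
  | twistBefore (d : G.Dart) : S.twisted d → Scheme.Glue S (S.rot.symm d) (S.rot.symm d.symm)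

/-- the faces of a scheme -/
def Scheme.Face {V : Type*} {G : SimpleGraph V} (S : Scheme G) : Type _ := Quot S.Glue

variable {V : Type*} {G : SimpleGraph V} (S : Scheme G)

/-- the face at the corner after the dart `d` -/
def Scheme.R (d : G.Dart) : S.Face := Quot.mk _ d

/-- the face at the corner before the dart `d` -/
def Scheme.L (d : G.Dart) : S.Face := Quot.mk _ (S.rot.symm d)

theorem Scheme.L_rot (d : G.Dart) : S.L (S.rot d) = S.R d := by
  unfold Scheme.L Scheme.R
  rw [Equiv.symm_apply_apply]

theorem Scheme.sides_symm (d : G.Dart) :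
    (S.L d.symm = S.R d ∧ S.R d.symm = S.L d) ∨ (S.L d.symm = S.L d ∧ S.R d.symm = S.R d) := by
  by_cases h : S.twisted d
  · right
    exact ⟨(Quot.sound (Scheme.Glue.twistBefore d h)).symm, (Quot.sound (Scheme.Glue.twistAfter d h)).symm⟩
  · left
    refine ⟨(Quot.sound (Scheme.Glue.flat d h)).symm, ?_⟩
    have h' : ¬ S.twisted d.symm := fun hh => h ((S.twisted_symm d).1 hh)
    have := Quot.sound (Scheme.Glue.flat d.symm h')
    rw [SimpleGraph.Dart.symm_symm] at this
    exact this

theorem Scheme.R_surj (x : S.Face) : ∃ d, S.R d = x := Quot.exists_rep x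

instance [Finite V] : Finite G.Dart := by
  classical
  have := Fintype.ofFinite V
  infer_instance

instance [Finite V] : Finite S.Face := Finite.of_surjective _ S.R_surj

/-- the sides of an edge as an unordered pair of faces -/
def Scheme.fp (d : G.Dart) : Sym2 S.Face := s(S.L d, S.R d)

theorem Scheme.fp_symm (d : G.Dart) : S.fp d.symm = S.fp d := by
  unfold Scheme.fp
  rcases S.sides_symm d with ⟨h1, h2⟩ | ⟨h1, h2⟩
  · rw [h1, h2, Sym2.eq_swap]
  · rw [h1, h2]

end Pool.Agent.H41.TF
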