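import Pool.Agent.H41.TF.Forest
import Pool.Agent.H41.TF.Scheme

/-!
# Density of two-coloured quotients of graphs of non-negative Euler characteristic  (MP_d78700_co)
-/

set_option autoImplicit false

open Finset

namespace Pool.Agent.H41.TF

theorem even_card_of_inv {α : Type*} [DecidableEq α] (A : Finset α) (g : α → α) (h1 : ∀ x ∈ A, g x ∈ A)
    (h2 : ∀ x ∈ A, g (g x) = x) (h3 : ∀ x ∈ A, g x ≠ x) : Even A.card := by
  have h : ∑ x ∈ A, (1 : ZMod 2) = 0 :=
    Finset.sum_involution (fun x _ => g x) (fun _ _ => by decide) (fun x hx _ => h3 x hx) (fun x hx => h1 x hx)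
      (fun x hx => h2 x hx)
  rw [Finset.sum_const, nsmul_eq_mul, mul_one] at h
  exact (ZMod.natCast_eq_zero_iff_even).1 h

section
variable {V : Type*} [Fintype V] {G : SimpleGraph V} (S : Scheme G)

open Classical in
/-- darts whose edge separates the set of faces `A` from its complement -/
noncomputable def bd (A : S.Face → Prop) : Finset G.Dart :=
  Finset.univ.filter fun d => ¬ (A (S.L d) ↔ A (S.R d))

theorem mem_bd {A : S.Face → Prop} {d : G.Dart} : d ∈ bd S A ↔ ¬ (A (S.L d) ↔ A (S.R d)) := by
  classical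
  simp [bd]

theorem bd_symm {A : S.Face → Prop} {d : G.Dart} (h : d ∈ bd S A) : d.symm ∈ bd S A := by
  rw [mem_bd] at h ⊢
  rcases S.sides_symm d with ⟨h1, h2⟩ | ⟨h1, h2⟩
  · rw [h1, h2]
    exact fun hh => h hh.symm
  · rwa [h1, h2]

open Classical in
theorem bd_even (A : S.Face → Prop) (v : V) : Even ((bd S A).filter fun d => d.fst = v).card := by
  have key : ((((bd S A).filter fun d => d.fst = v).card : ℕ) : ZMod 2) = 0 := by
    rw [Finset.card_filter]
    push_cast
    rw [Finset.sum_ite, Finset.sum_const_zero, add_zero]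
    have h1 : ∑ d ∈ (bd S A).filter (fun d => d.fst = v), (1 : ZMod 2) =
        ∑ d ∈ (Finset.univ : Finset G.Dart).filter (fun d => d.fst = v),
          ((if A (S.L d) then (1 : ZMod 2) else 0) + (if A (S.R d) then 1 else 0)) := by
      have h2 : (bd S A).filter (fun d => d.fst = v) =
          ((Finset.univ : Finset G.Dart).filter (fun d => d.fst = v)).filter (fun d => d ∈ bd S A) := by
        ext d
        simp only [Finset.mem_filter, Finset.mem_univ, true_and]
        tauto
      rw [h2, Finset.sum_filter]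
      refine Finset.sum_congr rfl fun d _ => ?_
      by_cases hL : A (S.L d) <;> by_cases hR : A (S.R d) <;> simp [mem_bd, hL, hR]
      decide
    rw [h1, Finset.sum_add_distrib]
    have h3 : ∑ d ∈ (Finset.univ : Finset G.Dart).filter (fun d => d.fst = v), (if A (S.R d) then (1 : ZMod 2) else 0) =
        ∑ d ∈ (Finset.univ : Finset G.Dart).filter (fun d => d.fst = v), (if A (S.L d) then (1 : ZMod 2) else 0) := by
      refine Finset.sum_bij (fun d _ => S.rot d) ?_ ?_ ?_ ?_
      · intro d hd
        simp only [Finset.mem_filter, Finset.mem_univ, true_and] at hd ⊢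
        rw [S.rot_fst, hd]
      · intro d _ e _ h
        exact S.rot.injective h
      · intro e he
        refine ⟨S.rot.symm e, ?_, Equiv.apply_symm_apply _ _⟩
        simp only [Finset.mem_filter, Finset.mem_univ, true_and] at he ⊢
        have := S.rot_fst (S.rot.symm e)
        rw [Equiv.apply_symm_apply] at this
        rw [← this, he]
      · intro d _
        rw [S.L_rot]
    rw [h3, ← Finset.sum_add_distrib]
    refine Finset.sum_eq_zero fun d _ => ?_
    by_cases hL : A (S.L d)
    · simp only [hL, if_true]; decide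
    · simp only [hL, if_false]; decide
  exact (ZMod.natCast_eq_zero_iff_even).1 key

/-- a set of faces with empty boundary is everything or empty -/
theorem bd_empty (hG : G.Connected) (A : S.Face → Prop) (h : bd S A = ∅) (x : S.Face) (hx : A x) (y : S.Face) : A y := by
  have h0 : ∀ d, (A (S.L d) ↔ A (S.R d)) := by
    intro d
    by_contra hc
    have : d ∈ bd S A := (mem_bd S).2 hc
    rw [h] at this
    simp at this
  have hrot : ∀ d, A (S.R d) → A (S.R (S.rot d)) := fun d hd => by
    rw [← h0, S.L_rot]; exact hd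
  have hrot' : ∀ d, A (S.R (S.rot d)) → A (S.R d) := fun d hd => by
    rw [← S.L_rot, h0]; exact hd
  have hzpow : ∀ (n : ℤ) (d : G.Dart), A (S.R d) ↔ A (S.R ((S.rot ^ n) d)) := by
    intro n
    induction n using Int.induction_on with
    | zero => intro d; simp
    | succ i ih =>
      intro d
      rw [zpow_add_one, Equiv.Perm.mul_apply, ← ih]
      exact ⟨hrot d, hrot' d⟩
    | pred i ih =>
      intro d
      rw [zpow_sub_one, Equiv.Perm.mul_apply, ← ih]
      have e : S.rot (S.rot⁻¹ d) = d := Equiv.apply_symm_apply _ _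
      constructor
      · intro hd
        refine hrot' _ ?_
        rw [e]; exact hd
      · intro hd
        have := hrot _ hd
        rwa [e] at this
  have hsame : ∀ d e : G.Dart, d.fst = e.fst → A (S.R d) → A (S.R e) := by
    intro d e hde hd
    obtain ⟨n, hn⟩ := S.rot_cycle d e hde
    rw [← hn]
    exact (hzpow n d).1 hd
  have hsymm : ∀ d, A (S.R d) → A (S.R d.symm) := by
    intro d hd
    rcases S.sides_symm d with ⟨h1, h2⟩ | ⟨h1, h2⟩
    · rw [h2, h0]; exact hd
    · rw [h2]; exact hd
  obtain ⟨d, rfl⟩ := S.R_surj x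
  obtain ⟨e, rfl⟩ := S.R_surj y
  have hreach : ∀ v w : V, G.Reachable v w → (∃ a : G.Dart, a.fst = v ∧ A (S.R a)) →
      (∀ b : G.Dart, b.fst = w → A (S.R b)) := by
    intro v w hvw
    obtain ⟨p⟩ := hvw
    induction p with
    | nil =>
      rintro ⟨a, ha, hA⟩ b hb
      exact hsame a b (by rw [ha, hb]) hA
    | @cons u v' w hadj q ih =>
      rintro ⟨a, ha, hA⟩
      refine ih ⟨(⟨(u, v'), hadj⟩ : G.Dart).symm, rfl, ?_⟩
      exact hsymm _ (hsame a _ ha hA)
  exact hreach d.fst e.fst (hG.preconnected _ _) ⟨d, rfl, hx⟩ e rfl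

theorem four_le {P : Type*} [DecidableEq P] (c : P → Prop) (Y : Finset (P × P)) (hne : Y.Nonempty)
    (hc : ∀ x ∈ Y, c x.1 ∧ ¬ c x.2)
    (hev : ∀ p, Even ((Y.filter fun x => x.1 = p).card + (Y.filter fun x => x.2 = p).card)) : 4 ≤ Y.card := by
  have h1 : ∀ x ∈ Y, ∃ y ∈ Y, y.1 = x.1 ∧ y ≠ x := by
    intro x hx
    have he : (Y.filter fun y => y.2 = x.1) = ∅ := by
      rw [Finset.filter_eq_empty_iff]
      intro y hy h
      exact (hc y hy).2 (h ▸ (hc x hx).1)
    have hev' := hev x.1
    rw [he, Finset.card_empty, add_zero] at hev'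
    have hpos : 0 < (Y.filter fun y => y.1 = x.1).card := Finset.card_pos.2 ⟨x, by simp [hx]⟩
    have h2 : 1 < (Y.filter fun y => y.1 = x.1).card := by
      rcases hev' with ⟨k, hk⟩
      omega
    obtain ⟨y, hy, hyx⟩ := Finset.exists_mem_ne h2 x
    rw [Finset.mem_filter] at hy
    exact ⟨y, hy.1, hy.2, hyx⟩
  have h2 : ∀ x ∈ Y, ∃ y ∈ Y, y.2 = x.2 ∧ y ≠ x := by
    intro x hx
    have he : (Y.filter fun y => y.1 = x.2) = ∅ := by
      rw [Finset.filter_eq_empty_iff]
      intro y hy h
      exact (hc x hx).2 (h ▸ (hc y hy).1)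
    have hev' := hev x.2
    rw [he, Finset.card_empty, zero_add] at hev'
    have hpos : 0 < (Y.filter fun y => y.2 = x.2).card := Finset.card_pos.2 ⟨x, by simp [hx]⟩
    have h2 : 1 < (Y.filter fun y => y.2 = x.2).card := by
      rcases hev' with ⟨k, hk⟩
      omega
    obtain ⟨y, hy, hyx⟩ := Finset.exists_mem_ne h2 x
    rw [Finset.mem_filter] at hy
    exact ⟨y, hy.1, hy.2, hyx⟩
  obtain ⟨x, hx⟩ := hne
  obtain ⟨y, hy, hy1, hyx⟩ := h1 x hx
  obtain ⟨z, hz, hz2, hzx⟩ := h2 x hx
  obtain ⟨w, hw, hw2, hwy⟩ := h2 y hy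
  have a1 : y.2 ≠ x.2 := fun h => hyx (Prod.ext hy1 h)
  have a2 : z.1 ≠ x.1 := fun h => hzx (Prod.ext h hz2)
  have a3 : w.1 ≠ y.1 := fun h => hwy (Prod.ext h hw2)
  have b1 : x ≠ y := fun h => hyx h.symm
  have b2 : x ≠ z := fun h => hzx h.symm
  have b3 : x ≠ w := fun h => by rw [← h] at hw2; exact a1 hw2.symm
  have b4 : y ≠ z := fun h => by rw [← h] at hz2; exact a1 hz2
  have b5 : y ≠ w := fun h => hwy h.symm
  have b6 : z ≠ w := fun h => by rw [← h, hz2] at hw2; exact a1 hw2.symm
  have hsub : ({x, y, z, w} : Finset (P × P)) ⊆ Y := by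
    intro u hu
    simp only [Finset.mem_insert, Finset.mem_singleton] at hu
    rcases hu with rfl | rfl | rfl | rfl <;> assumption
  have hcard : ({x, y, z, w} : Finset (P × P)).card = 4 := by
    rw [Finset.card_insert_of_notMem, Finset.card_insert_of_notMem, Finset.card_insert_of_notMem,
      Finset.card_singleton]
    · simpa using b6
    · simp [b4, b5]
    · simp [b1, b2, b3]
  rw [← hcard]
  exact Finset.card_le_card hsub

open Classical in
/-- coloured adjacent pairs of components of `H` -/
noncomputable def pairsF (G H : SimpleGraph V) (c : H.ConnectedComponent → Prop) :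
    Finset (H.ConnectedComponent × H.ConnectedComponent) :=
  Finset.univ.filter fun x => c x.1 ∧ ¬ c x.2 ∧
    ∃ d : G.Dart, H.connectedComponentMk d.fst = x.1 ∧ H.connectedComponentMk d.snd = x.2

open Classical in
/-- Density lemma -/
theorem density (hG : G.Connected) (hχ : Nat.card G.edgeSet ≤ Nat.card V + Nat.card S.Face)
    (H : SimpleGraph V) (hH : H ≤ G) (c : H.ConnectedComponent → Prop) :
    (pairsF G H c).card ≤ 2 * Nat.card H.ConnectedComponent := by
  by_cases hdne : Nonempty G.Dart
  swap
  · have : pairsF G H c = ∅ := by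
      unfold pairsF
      rw [Finset.filter_eq_empty_iff]
      rintro x _ ⟨_, _, d, _⟩
      exact hdne ⟨d⟩
    rw [this, Finset.card_empty]
    exact Nat.zero_le _
  obtain ⟨root, par, ht, hroot, hpar⟩ := exists_parent H
  obtain ⟨cm, hcm⟩ : ∃ cm : V → H.ConnectedComponent, cm = H.connectedComponentMk := ⟨_, rfl⟩
  obtain ⟨EH, hEH⟩ : ∃ EH, EH = pairsF G H c := ⟨_, rfl⟩
  rw [← hEH]
  rw [← hcm] at hpar hroot
  have hcmadj : ∀ u v, H.Adj u v → cm u = cm v := by
    intro u v h
    rw [hcm]
    exact SimpleGraph.ConnectedComponent.eq.2 h.reachable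
  have hrep : ∀ x ∈ EH, ∃ d : G.Dart, cm d.fst = x.1 ∧ cm d.snd = x.2 := by
    intro x hx
    rw [hEH] at hx
    simp only [pairsF, Finset.mem_filter, Finset.mem_univ, true_and] at hx
    obtain ⟨_, _, d, h1, h2⟩ := hx
    rw [hcm]
    exact ⟨d, h1, h2⟩
  have hcol : ∀ x ∈ EH, c x.1 ∧ ¬ c x.2 := by
    intro x hx
    rw [hEH] at hx
    simp only [pairsF, Finset.mem_filter, Finset.mem_univ, true_and] at hx
    exact ⟨hx.1, hx.2.1⟩
  choose! rep hrep using hrep
  have hrepE : ∀ x ∈ EH, ∀ y ∈ EH, (rep x).edge = (rep y).edge → x = y := by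
    intro x hx y hy h
    rcases (SimpleGraph.dart_edge_eq_iff _ _).1 h with h | h
    · have h1 := hrep x hx
      have h2 := hrep y hy
      rw [h] at h1
      exact Prod.ext (by rw [← h1.1, h2.1]) (by rw [← h1.2, h2.2])
    · exfalso
      have h1 := (hrep x hx).1
      have h2 := (hrep y hy).2
      rw [h] at h1
      have h3 : x.1 = y.2 := by rw [← h1, ← h2]; rfl
      exact (hcol y hy).2 (h3 ▸ (hcol x hx).1)
  -- the edge sets
  obtain ⟨NR, hNR⟩ : ∃ NR : Finset V, NR = Finset.univ.filter fun w => w ≠ root (cm w) := ⟨_, rfl⟩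
  obtain ⟨KH, hKH⟩ : ∃ KH : Finset (Sym2 V), KH = EH.image fun x => (rep x).edge := ⟨_, rfl⟩
  obtain ⟨KF, hKF⟩ : ∃ KF : Finset (Sym2 V), KF = NR.image fun w => s(w, par w) := ⟨_, rfl⟩
  obtain ⟨K, hK⟩ : ∃ K : Finset (Sym2 V), K = KH ∪ KF := ⟨_, rfl⟩
  have hNRmem : ∀ w ∈ NR, H.Adj w (par w) ∧ ht (par w) < ht w := by
    intro w hw
    rw [hNR, Finset.mem_filter] at hw
    exact hpar w hw.2
  have cardKH : KH.card = EH.card := by
    rw [hKH]
    exact Finset.card_image_of_injOn fun x hx y hy h => hrepE x hx y hy h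
  have cardKF : KF.card = NR.card := by
    rw [hKF]
    refine Finset.card_image_of_injOn fun w hw w' hw' h => ?_
    rcases Sym2.eq_iff.1 h with ⟨h3, _⟩ | ⟨h3, h4⟩
    · exact h3
    · exfalso
      have a1 := (hNRmem w hw).2
      have a2 := (hNRmem w' hw').2
      rw [h4] at a1
      rw [← h3] at a2
      omega
  have cardNR : NR.card + Nat.card H.ConnectedComponent = Nat.card V := by
    have h1 : (Finset.univ.filter fun w : V => ¬ (w ≠ root (cm w))).card = Nat.card H.ConnectedComponent := by
      have h2 : (Finset.univ.filter fun w : V => ¬ (w ≠ root (cm w))) =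
          (Finset.univ : Finset H.ConnectedComponent).image root := by
        ext w
        simp only [ne_eq, not_not, Finset.mem_filter, Finset.mem_univ, true_and, Finset.mem_image]
        constructor
        · intro h
          exact ⟨cm w, h.symm⟩
        · rintro ⟨q, rfl⟩
          rw [hroot]
      rw [h2, Finset.card_image_of_injective, Finset.card_univ, Nat.card_eq_fintype_card]
      intro a b hab
      rw [← hroot a, ← hroot b, hab]
    rw [← h1, hNR, Finset.card_filter_add_card_filter_not, Finset.card_univ, Nat.card_eq_fintype_card]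
  have hKFin : ∀ d : G.Dart, d.edge ∈ KF → cm d.fst = cm d.snd := by
    intro d hd
    rw [hKF, Finset.mem_image] at hd
    obtain ⟨w, hw, hwe⟩ := hd
    have h1 := hcmadj _ _ (hNRmem w hw).1
    have h2 : s(w, par w) = s(d.fst, d.snd) := hwe
    rcases Sym2.eq_iff.1 h2 with ⟨h3, h4⟩ | ⟨h3, h4⟩
    · rw [← h3, ← h4, h1]
    · rw [← h3, ← h4, h1]
  have hKHin : ∀ d : G.Dart, d.edge ∈ KH → cm d.fst ≠ cm d.snd := by
    intro d hd
    rw [hKH, Finset.mem_image] at hd
    obtain ⟨x, hx, hxe⟩ := hd
    have h1 := hrep x hx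
    have h2 := hcol x hx
    have h3 : x.1 ≠ x.2 := fun h => h2.2 (h ▸ h2.1)
    rcases (SimpleGraph.dart_edge_eq_iff _ _).1 hxe with h | h
    · rw [← h, h1.1, h1.2]; exact h3
    · have e1 : d = (rep x).symm := by rw [h, SimpleGraph.Dart.symm_symm]
      rw [e1]
      change cm (rep x).snd ≠ cm (rep x).fst
      rw [h1.1, h1.2]; exact h3.symm
  have hdisj : Disjoint KH KF := by
    rw [Finset.disjoint_left]
    intro e h1 h2
    have h1' := h1
    rw [hKH, Finset.mem_image] at h1'
    obtain ⟨x, _, hxe⟩ := h1'
    rw [← hxe] at h1 h2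
    exact hKHin _ h1 (hKFin _ h2)
  have cardK : K.card + Nat.card H.ConnectedComponent = EH.card + Nat.card V := by
    rw [hK, Finset.card_union_of_disjoint hdisj, cardKH, cardKF]
    omega
  have hKG : K ⊆ G.edgeFinset := by
    intro e he
    rw [hK, Finset.mem_union] at he
    rw [SimpleGraph.mem_edgeFinset]
    rcases he with he | he
    · rw [hKH, Finset.mem_image] at he
      obtain ⟨x, _, rfl⟩ := he
      exact (rep x).edge_mem
    · rw [hKF, Finset.mem_image] at he
      obtain ⟨w, hw, rfl⟩ := he
      exact hH (hNRmem w hw).1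
  -- the face graph
  let Γ : SimpleGraph S.Face :=
    { Adj := fun x y => x ≠ y ∧ ∃ d : G.Dart, d.edge ∉ K ∧ S.fp d = s(x, y)
      symm := ⟨by
        rintro x y ⟨h1, d, h2, h3⟩
        exact ⟨h1.symm, d, h2, by rw [h3, Sym2.eq_swap]⟩⟩
      loopless := ⟨fun x h => h.1 rfl⟩ }
  have : Fintype Γ.ConnectedComponent := Fintype.ofFinite _
  have hΓ : ∀ x y, Γ.Adj x y ↔ (x ≠ y ∧ ∃ d : G.Dart, d.edge ∉ K ∧ S.fp d = s(x, y)) := fun x y => Iff.rfl
  have hdart : ∀ e : G.edgeSet, ∃ d : G.Dart, d.edge = e.1 := by
    rintro ⟨e, he⟩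
    induction e using Sym2.ind with
    | _ u v => exact ⟨⟨(u, v), he⟩, rfl⟩
  choose dt hdt using hdart
  have hcomp := card_le_components Γ ((Finset.univ : Finset G.edgeSet).filter fun e => e.1 ∉ K)
    (fun e => S.fp (dt e)) (by
      rintro x y ⟨_, d, h2, h3⟩
      refine ⟨⟨d.edge, d.edge_mem⟩, ?_, ?_⟩
      · simp only [Finset.mem_filter, Finset.mem_univ, true_and]
        exact h2
      · have h4 := hdt ⟨d.edge, d.edge_mem⟩
        rcases (SimpleGraph.dart_edge_eq_iff _ _).1 h4 with h | h
        · rw [← h3]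
          simp only [h]
        · rw [← h3]
          simp only [h, S.fp_symm])
  have hEcount : ((Finset.univ : Finset G.edgeSet).filter fun e => e.1 ∉ K).card + K.card = Nat.card G.edgeSet := by
    have h1 : ((Finset.univ : Finset G.edgeSet).filter fun e => ¬ (e.1 ∉ K)).card = K.card := by
      refine Finset.card_bij (fun e _ => e.1) ?_ ?_ ?_
      · intro e he
        simpa using he
      · intro a _ b _ h
        exact Subtype.ext h
      · intro b hb
        exact ⟨⟨b, by have := hKG hb; rwa [SimpleGraph.mem_edgeFinset] at this⟩, by simpa using hb, rfl⟩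
    rw [← h1, Finset.card_filter_add_card_filter_not, Finset.card_univ, Nat.card_eq_fintype_card]
  obtain ⟨cc, hcc⟩ : ∃ cc : S.Face → Γ.ConnectedComponent, cc = Γ.connectedComponentMk := ⟨_, rfl⟩
  obtain ⟨κn, hκn⟩ : ∃ κn, κn = Nat.card Γ.ConnectedComponent := ⟨_, rfl⟩
  have hmain : EH.card ≤ Nat.card H.ConnectedComponent + κn := by
    rw [hκn]
    omega
  have hn1 : 1 ≤ Nat.card H.ConnectedComponent := by
    have : Nonempty H.ConnectedComponent := ⟨cm hdne.some.fst⟩
    exact Nat.card_pos
  by_cases hκ : κn ≤ 1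
  · omega
  have hcc_adj : ∀ x y, Γ.Adj x y → cc x = cc y := by
    intro x y h
    rw [hcc]
    exact SimpleGraph.ConnectedComponent.eq.2 h.reachable
  -- properties of the boundaries
  have hX2 : ∀ κ : Γ.ConnectedComponent, ∀ d ∈ bd S (fun x => cc x = κ), d.edge ∈ K := by
    intro κ d hd
    rw [mem_bd] at hd
    by_contra hK'
    apply hd
    by_cases heq : S.L d = S.R d
    · rw [heq]
    · have : Γ.Adj (S.L d) (S.R d) := ⟨heq, d, hK', rfl⟩
      simp only [hcc_adj _ _ this]
  have hX4 : ∀ κ : Γ.ConnectedComponent, (bd S (fun x => cc x = κ)).Nonempty := by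
    intro κ
    rw [Finset.nonempty_iff_ne_empty]
    intro hem
    have hκ' : ∀ κ' : Γ.ConnectedComponent, κ' = κ := by
      intro κ'
      induction κ using SimpleGraph.ConnectedComponent.ind with
      | _ x =>
        induction κ' using SimpleGraph.ConnectedComponent.ind with
        | _ y =>
          have hx : cc x = Γ.connectedComponentMk x := by rw [hcc]
          have := bd_empty S hG (fun z => cc z = Γ.connectedComponentMk x) hem x hx y
          rw [← this, hcc]
    have : κn ≤ 1 := by
      rw [hκn]
      have : Subsingleton Γ.ConnectedComponent := ⟨fun a b => by rw [hκ' a, hκ' b]⟩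
      exact Finite.card_le_one_iff_subsingleton.2 this
    exact hκ this
  have hfour : ∀ κ : Γ.ConnectedComponent, 4 ≤ (EH.filter fun x => rep x ∈ bd S (fun x => cc x = κ)).card := by
    intro κ
    obtain ⟨X, hX⟩ : ∃ X, X = bd S (fun x => cc x = κ) := ⟨_, rfl⟩
    have hXs : ∀ d ∈ X, d.symm ∈ X := by
      intro d hd
      rw [hX] at hd ⊢
      exact bd_symm S hd
    have hXK : ∀ d ∈ X, d.edge ∈ K := by rw [hX]; exact hX2 κ
    have hXne : X.Nonempty := by rw [hX]; exact hX4 κ
    have hXev : ∀ v, Even (X.filter fun d => d.fst = v).card := by rw [hX]; exact bd_even S _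
    rw [← hX]
    refine four_le c _ ?_ (fun x hx => hcol x (Finset.mem_filter.1 hx).1) ?_
    · -- nonempty
      by_contra hem
      rw [Finset.not_nonempty_iff_eq_empty, Finset.filter_eq_empty_iff] at hem
      have hXF : ∀ d ∈ X, d.edge ∈ KF := by
        intro d hd
        have h1 := hXK d hd
        rw [hK, Finset.mem_union] at h1
        rcases h1 with h1 | h1
        · exfalso
          rw [hKH, Finset.mem_image] at h1
          obtain ⟨x, hx, hxe⟩ := h1
          rcases (SimpleGraph.dart_edge_eq_iff _ _).1 hxe with h | h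
          · exact hem hx (h ▸ hd)
          · exact hem hx (h ▸ hXs d hd)
        · exact h1
      obtain ⟨d, hd, hmax⟩ := Finset.exists_max_image X (fun d => ht d.fst) hXne
      have huniq : ∀ d' ∈ X, d'.fst = d.fst → d'.snd = par d.fst := by
        intro d' hd' hfst
        have h1 := hXF d' hd'
        rw [hKF, Finset.mem_image] at h1
        obtain ⟨w, hw, hwe⟩ := h1
        have h2 : s(w, par w) = s(d'.fst, d'.snd) := hwe
        rcases Sym2.eq_iff.1 h2 with ⟨h3, h4⟩ | ⟨h3, h4⟩
        · rw [← h4, ← hfst, ← h3]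
        · exfalso
          have h5 := hmax d'.symm (hXs d' hd')
          have h6 := (hNRmem w hw).2
          rw [h4, h3, hfst] at h6
          have h7 : ht d'.symm.fst = ht d'.snd := rfl
          omega
      have hone : (X.filter fun e => e.fst = d.fst) = {d} := by
        ext e
        simp only [Finset.mem_filter, Finset.mem_singleton]
        constructor
        · rintro ⟨h1, h2⟩
          refine SimpleGraph.Dart.ext _ _ (Prod.ext h2 ?_)
          rw [show e.toProd.2 = e.snd from rfl, show d.toProd.2 = d.snd from rfl, huniq e h1 h2, huniq d hd rfl]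
        · rintro rfl
          exact ⟨hd, rfl⟩
      have := hXev d.fst
      rw [hone, Finset.card_singleton] at this
      exact absurd this (by decide)
    · intro p
      -- darts of X based in the part p
      have hDp : Even (X.filter fun d => cm d.fst = p).card := by
        have h1 : (X.filter fun d => cm d.fst = p).card =
            ∑ v ∈ (Finset.univ : Finset V).filter (fun v => cm v = p), (X.filter fun d => d.fst = v).card := by
          rw [Finset.card_eq_sum_card_fiberwise (f := fun d : G.Dart => d.fst)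
            (t := (Finset.univ : Finset V).filter (fun v => cm v = p))]
          · refine Finset.sum_congr rfl fun v hv => ?_
            congr 1
            ext d
            simp only [Finset.mem_filter, Finset.mem_univ, true_and] at hv ⊢
            constructor
            · rintro ⟨⟨h1, _⟩, h3⟩
              exact ⟨h1, h3⟩
            · rintro ⟨h1, h3⟩
              exact ⟨⟨h1, by rw [h3, hv]⟩, h3⟩
          · intro d hd
            simp only [Finset.coe_filter, Set.mem_ofPred_eq, Finset.mem_univ, true_and] at hd ⊢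
            exact hd.2
        rw [h1]
        exact Finset.even_sum _ fun v _ => hXev v
      have hF : Even ((X.filter fun d => cm d.fst = p).filter fun d => d.edge ∈ KF).card := by
        refine even_card_of_inv _ (fun d => d.symm) ?_ (fun d _ => d.symm_symm) (fun d _ => d.symm_ne)
        intro d hd
        simp only [Finset.mem_filter] at hd ⊢
        refine ⟨⟨hXs d hd.1.1, ?_⟩, ?_⟩
        · change cm d.snd = p
          rw [← hKFin d hd.2, hd.1.2]
        · rw [SimpleGraph.Dart.edge_symm]
          exact hd.2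
      have hHd : ((X.filter fun d => cm d.fst = p).filter fun d => d.edge ∉ KF) =
          (((EH.filter fun x => rep x ∈ X).filter fun x => x.1 = p).image rep) ∪
          (((EH.filter fun x => rep x ∈ X).filter fun x => x.2 = p).image fun x => (rep x).symm) := by
        ext d
        simp only [Finset.mem_filter, Finset.mem_union, Finset.mem_image]
        constructor
        · rintro ⟨⟨h1, h2⟩, h3⟩
          have h4 := hXK d h1
          rw [hK, Finset.mem_union] at h4
          have h5 := h4.resolve_right h3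
          rw [hKH, Finset.mem_image] at h5
          obtain ⟨x, hx, hxe⟩ := h5
          rcases (SimpleGraph.dart_edge_eq_iff _ _).1 hxe with h | h
          · left
            exact ⟨x, ⟨⟨hx, h ▸ h1⟩, by rw [← (hrep x hx).1, h, h2]⟩, h⟩
          · right
            have e1 : (rep x).symm = d := by rw [h, SimpleGraph.Dart.symm_symm]
            refine ⟨x, ⟨⟨hx, h ▸ hXs d h1⟩, ?_⟩, e1⟩
            rw [← (hrep x hx).2, h]
            exact h2
        · rintro (⟨x, ⟨⟨hx, hxX⟩, hxp⟩, rfl⟩ | ⟨x, ⟨⟨hx, hxX⟩, hxp⟩, rfl⟩)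
          · refine ⟨⟨hxX, by rw [(hrep x hx).1, hxp]⟩, fun h => ?_⟩
            refine (Finset.disjoint_left.1 hdisj) ?_ h
            rw [hKH]
            exact Finset.mem_image_of_mem _ hx
          · refine ⟨⟨hXs _ hxX, ?_⟩, fun h => ?_⟩
            · change cm (rep x).snd = p
              rw [(hrep x hx).2, hxp]
            · rw [SimpleGraph.Dart.edge_symm] at h
              refine (Finset.disjoint_left.1 hdisj) ?_ h
              rw [hKH]
              exact Finset.mem_image_of_mem _ hx
      have hHc : ((X.filter fun d => cm d.fst = p).filter fun d => d.edge ∉ KF).card =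
          ((EH.filter fun x => rep x ∈ X).filter fun x => x.1 = p).card +
          ((EH.filter fun x => rep x ∈ X).filter fun x => x.2 = p).card := by
        rw [hHd, Finset.card_union_of_disjoint, Finset.card_image_of_injOn, Finset.card_image_of_injOn]
        · intro x hx y hy h
          simp only [Finset.coe_filter, Set.mem_ofPred_eq, Finset.mem_filter] at hx hy
          refine hrepE x hx.1.1 y hy.1.1 ?_
          have h' : (rep x).symm = (rep y).symm := h
          rw [← SimpleGraph.Dart.edge_symm (rep x), h', SimpleGraph.Dart.edge_symm]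
        · intro x hx y hy h
          simp only [Finset.coe_filter, Set.mem_ofPred_eq, Finset.mem_filter] at hx hy
          exact hrepE x hx.1.1 y hy.1.1 (by rw [h])
        · rw [Finset.disjoint_left]
          intro d h1 h2
          simp only [Finset.mem_image, Finset.mem_filter] at h1 h2
          obtain ⟨x, ⟨⟨hx, _⟩, hxp⟩, hxd⟩ := h1
          obtain ⟨y, ⟨⟨hy, _⟩, hyp⟩, hyd⟩ := h2
          exact (hcol y hy).2 (by rw [hyp, ← hxp]; exact (hcol x hx).1)
      have hsum := Finset.card_filter_add_card_filter_not (s := X.filter fun d => cm d.fst = p)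
        (fun d => d.edge ∈ KF)
      rw [hHc] at hsum
      rcases hDp with ⟨a, ha⟩
      rcases hF with ⟨b, hb⟩
      refine ⟨a - b, ?_⟩
      omega
  -- double counting
  have hdc : ∑ κ : Γ.ConnectedComponent, (EH.filter fun x => rep x ∈ bd S (fun x => cc x = κ)).card ≤ EH.card * 2 := by
    have h1 : ∀ κ : Γ.ConnectedComponent, (EH.filter fun x => rep x ∈ bd S (fun x => cc x = κ)).card =
        ∑ x ∈ EH, if rep x ∈ bd S (fun x => cc x = κ) then 1 else 0 := fun κ => Finset.card_filter _ _
    simp only [h1]
    rw [Finset.sum_comm]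
    refine (Finset.sum_le_card_nsmul _ _ 2 fun x _ => ?_).trans (by rw [smul_eq_mul])
    rw [← Finset.card_filter]
    have h2 : ((Finset.univ : Finset Γ.ConnectedComponent).filter fun κ => rep x ∈ bd S (fun x => cc x = κ)) ⊆
        {cc (S.L (rep x)), cc (S.R (rep x))} := by
      intro κ hκ'
      simp only [Finset.mem_filter, Finset.mem_univ, true_and, mem_bd] at hκ'
      rw [Finset.mem_insert, Finset.mem_singleton]
      by_contra hcon
      push Not at hcon
      apply hκ'
      constructor
      · intro h; exact absurd h.symm hcon.1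
      · intro h; exact absurd h.symm hcon.2
    exact (Finset.card_le_card h2).trans Finset.card_le_two
  have h4 : 4 * κn ≤ ∑ κ : Γ.ConnectedComponent, (EH.filter fun x => rep x ∈ bd S (fun x => cc x = κ)).card := by
    have := Finset.card_nsmul_le_sum (Finset.univ : Finset Γ.ConnectedComponent)
      (fun κ => (EH.filter fun x => rep x ∈ bd S (fun x => cc x = κ)).card) 4 (fun κ _ => hfour κ)
    rw [Finset.card_univ, smul_eq_mul, ← Nat.card_eq_fintype_card, ← hκn] at this
    omega
  omega

end

end Pool.Agent.H41.TF
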