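import Pool.Agent.H41.TF.Struct

/-!
# 2-factors in 4-connected graphs of non-negative Euler characteristic  (MP_d78700_co)
-/

set_option autoImplicit false

namespace Pool.Agent.H41.TF

variable {V : Type*} {G : SimpleGraph V}

/-- 4-connected: at least 5 vertices, and connected after deleting at most 3 vertices -/
def FourConn (G : SimpleGraph V) : Prop :=
  5 ≤ Nat.card V ∧ ∀ X : Set V, X.ncard ≤ 3 → (G.induce Xᶜ).Connected

theorem four_nbrs (h : FourConn G) (A : Set V) (hA : A.Nonempty) (w : V) (hw : w ∉ A)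
    (hwN : ∀ a ∈ A, ¬ G.Adj a w) : 4 ≤ {v | v ∉ A ∧ ∃ a ∈ A, G.Adj a v}.ncard := by
  by_contra hcon
  push Not at hcon
  have hc := h.2 {v | v ∉ A ∧ ∃ a ∈ A, G.Adj a v} (by omega)
  obtain ⟨a, ha⟩ := hA
  have ha' : a ∈ ({v | v ∉ A ∧ ∃ a ∈ A, G.Adj a v} : Set V)ᶜ := fun h => h.1 ha
  have hw' : w ∈ ({v | v ∉ A ∧ ∃ a ∈ A, G.Adj a v} : Set V)ᶜ := fun h => by
    obtain ⟨b, hb, hbw⟩ := h.2
    exact hwN b hb hbw
  obtain ⟨p⟩ := hc.preconnected ⟨a, ha'⟩ ⟨w, hw'⟩
  have key : ∀ (x y : (({v | v ∉ A ∧ ∃ a ∈ A, G.Adj a v} : Set V)ᶜ : Set V))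
      (p : (G.induce (({v | v ∉ A ∧ ∃ a ∈ A, G.Adj a v} : Set V)ᶜ)).Walk x y), x.1 ∈ A → y.1 ∈ A := by
    intro x y p
    induction p with
    | nil => exact id
    | @cons x z y hadj q ih =>
      intro hx
      apply ih
      by_contra hz
      exact z.2 ⟨hz, x.1, hx, hadj⟩
  exact hw (key _ _ p ha)

theorem ncard_setOf' {α : Type*} [Fintype α] (p : α → Prop) [DecidablePred p] :
    {x | p x}.ncard = (Finset.univ.filter p).card := by
  rw [Set.ncard_eq_toFinset_card']
  congr 1
  ext x
  simp

theorem snd_inj {v : V} {d e : G.Dart} (hd : d.fst = v) (he : e.fst = v) (h : d.snd = e.snd) : d = e :=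
  SimpleGraph.Dart.ext _ _ (Prod.ext (by rw [hd, he]) h)

theorem deg_ge [Finite V] (h : FourConn G) (v : V) : 4 ≤ {d : G.Dart | d.fst = v}.ncard := by
  have h1 : {d : G.Dart | d.fst = v}.ncard = {w | w ∉ ({v} : Set V) ∧ ∃ a ∈ ({v} : Set V), G.Adj a w}.ncard := by
    have : {w | w ∉ ({v} : Set V) ∧ ∃ a ∈ ({v} : Set V), G.Adj a w} = (fun d : G.Dart => d.snd) '' {d : G.Dart | d.fst = v} := by
      ext w
      constructor
      · rintro ⟨_, a, ha, haw⟩
        rw [Set.mem_singleton_iff] at ha
        subst ha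
        exact ⟨⟨(a, w), haw⟩, rfl, rfl⟩
      · rintro ⟨d, hd, rfl⟩
        have hd' : d.fst = v := hd
        refine ⟨?_, v, rfl, ?_⟩
        · rw [Set.mem_singleton_iff, ← hd']
          exact d.adj.ne'
        · rw [← hd']; exact d.adj
    rw [this, Set.InjOn.ncard_image]
    intro d hd e he hde
    exact snd_inj hd he hde
  rw [h1]
  by_cases hw : ∃ w, w ∉ ({v} : Set V) ∧ ∀ a ∈ ({v} : Set V), ¬ G.Adj a w
  · obtain ⟨w, hw1, hw2⟩ := hw
    exact four_nbrs h {v} (Set.singleton_nonempty v) w hw1 hw2
  · push Not at hw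
    have : {w | w ∉ ({v} : Set V) ∧ ∃ a ∈ ({v} : Set V), G.Adj a w} = ({v} : Set V)ᶜ := by
      ext w
      constructor
      · exact fun h => h.1
      · exact fun h => ⟨h, hw w h⟩
    rw [this]
    have h2 := Set.ncard_add_ncard_compl ({v} : Set V)
    rw [Set.ncard_singleton] at h2
    have := h.1
    omega

open Classical in
theorem two_factor [Fintype V] (h4 : FourConn G) (Sch : Scheme G)
    (hχ : Nat.card G.edgeSet ≤ Nat.card V + Nat.card Sch.Face) :
    ∃ F : SimpleGraph V, F ≤ G ∧ ∀ v, (F.neighborSet v).ncard = 2 := by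
  by_contra hno
  have hconn : G.Connected := by
    have h1 := h4.2 ∅ (by simp)
    rw [Set.compl_empty] at h1
    exact (SimpleGraph.induceUnivIso G).connected_iff.1 h1
  have hdeg : ∀ v, ∃ d : G.Dart, d.fst = v := by
    intro v
    have h1 := deg_ge h4 v
    have h2 : {d : G.Dart | d.fst = v}.Nonempty := by
      rw [← Set.ncard_pos]
      omega
    exact h2
  obtain ⟨S, T, hST, hTind, hinj, hodd, hbar⟩ := barrier hdeg hno
  obtain ⟨cm, hcm⟩ : ∃ cm : V → (restG G S T).ConnectedComponent, cm = cmR G S T := ⟨_, rfl⟩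
  have hcmeq : ∀ u v, cm u = cm v → u = v ∨ ((u ∉ S ∧ u ∉ T) ∧ (v ∉ S ∧ v ∉ T)) := by
    rw [hcm]
    exact fun u v h => cmR_eq_iff S T h
  have hdisj : ∀ v, v ∈ S → v ∉ T := fun v h1 h2 => Set.disjoint_left.1 hST h1 h2
  -- darts from T have distinct end components
  have hinj' : ∀ d d' : G.Dart, d.fst = d'.fst → d.fst ∈ T → cm d.snd = cm d'.snd → d = d' := by
    intro d d' h1 h2 h3
    rcases hcmeq _ _ h3 with h | h
    · exact snd_inj rfl h1.symm h
    · exact hinj d d' h1 h2 h.1.1 h.2.1 (by rw [← hcm]; exact h3)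
  obtain ⟨Rc, hRc⟩ : ∃ Rc : (restG G S T).ConnectedComponent → Prop, Rc = fun C => ∃ v, v ∉ S ∧ v ∉ T ∧ cm v = C :=
    ⟨_, rfl⟩
  have hRcS : ∀ s ∈ S, ¬ Rc (cm s) := by
    intro s hs hc
    rw [hRc] at hc
    obtain ⟨v, h1, h2, h3⟩ := hc
    rcases hcmeq _ _ h3 with h | h
    · exact h1 (h ▸ hs)
    · exact h.2.1 hs
  have hRcT : ∀ t ∈ T, ¬ Rc (cm t) := by
    intro s hs hc
    rw [hRc] at hc
    obtain ⟨v, h1, h2, h3⟩ := hc
    rcases hcmeq _ _ h3 with h | h
    · exact h2 (h ▸ hs)
    · exact h.2.2 hs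
  obtain ⟨c, hc⟩ : ∃ c : (restG G S T).ConnectedComponent → Prop,
      c = fun C => (∃ t ∈ T, cm t = C) ∨ (Rc C ∧ tC G S T C ≤ 1) := ⟨_, rfl⟩
  have hdens := density Sch hconn hχ (restG G S T) (restG_le S T) c
  obtain ⟨Pr, hPr⟩ : ∃ Pr, Pr = pairsF G (restG G S T) c := ⟨_, rfl⟩
  rw [← hPr] at hdens
  have hPrmem : ∀ x, x ∈ Pr ↔ (c x.1 ∧ ¬ c x.2 ∧ ∃ d : G.Dart, cm d.fst = x.1 ∧ cm d.snd = x.2) := by
    intro x
    rw [hPr, hcm]
    simp only [pairsF, Finset.mem_filter, Finset.mem_univ, true_and]
  obtain ⟨RL, hRL⟩ : ∃ RL : Finset (restG G S T).ConnectedComponent,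
      RL = Finset.univ.filter fun C => Rc C ∧ tC G S T C ≤ 1 := ⟨_, rfl⟩
  obtain ⟨RH, hRH⟩ : ∃ RH : Finset (restG G S T).ConnectedComponent,
      RH = Finset.univ.filter fun C => Rc C ∧ ¬ tC G S T C ≤ 1 := ⟨_, rfl⟩
  have hRLmem : ∀ C, C ∈ RL ↔ (Rc C ∧ tC G S T C ≤ 1) := by intro C; rw [hRL]; simp
  have hRHmem : ∀ C, C ∈ RH ↔ (Rc C ∧ ¬ tC G S T C ≤ 1) := by intro C; rw [hRH]; simp
  -- tC as a finset cardinality
  have htC : ∀ C, tC G S T C = (Finset.univ.filter fun d : G.Dart => d.fst ∈ T ∧ cm d.snd = C).card := by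
    intro C
    unfold tC
    rw [← hcm]
    exact ncard_setOf' _
  -- number of parts
  have hn : Nat.card (restG G S T).ConnectedComponent ≤ S.ncard + T.ncard + RL.card + RH.card := by
    rw [Nat.card_eq_fintype_card, ← Finset.card_univ, Set.ncard_eq_toFinset_card', Set.ncard_eq_toFinset_card']
    have h1 : (Finset.univ : Finset (restG G S T).ConnectedComponent) ⊆
        ((S.toFinset.image cm ∪ T.toFinset.image cm) ∪ RL) ∪ RH := by
      intro C _
      induction C using SimpleGraph.ConnectedComponent.ind with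
      | _ v =>
        have hv : (restG G S T).connectedComponentMk v = cm v := by rw [hcm]
        rw [hv]
        simp only [Finset.mem_union, Finset.mem_image, Set.mem_toFinset]
        by_cases h1 : v ∈ S
        · left; left; left; exact ⟨v, h1, rfl⟩
        · by_cases h2 : v ∈ T
          · left; left; right; exact ⟨v, h2, rfl⟩
          · have h3 : Rc (cm v) := by rw [hRc]; exact ⟨v, h1, h2, rfl⟩
            by_cases h4 : tC G S T (cm v) ≤ 1
            · left; right; exact (hRLmem _).2 ⟨h3, h4⟩
            · right; exact (hRHmem _).2 ⟨h3, h4⟩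
    refine (Finset.card_le_card h1).trans ?_
    refine (Finset.card_union_le _ _).trans (Nat.add_le_add_right ?_ _)
    refine (Finset.card_union_le _ _).trans (Nat.add_le_add_right ?_ _)
    refine (Finset.card_union_le _ _).trans (Nat.add_le_add ?_ ?_)
    · exact Finset.card_image_le
    · exact Finset.card_image_le
  -- darts from T
  obtain ⟨DT, hDT⟩ : ∃ DT : Finset G.Dart, DT = Finset.univ.filter fun d : G.Dart => d.fst ∈ T := ⟨_, rfl⟩
  have hDTmem : ∀ d, d ∈ DT ↔ d.fst ∈ T := by intro d; rw [hDT]; simp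
  have hRcd : ∀ d : G.Dart, d.fst ∈ T → d.snd ∉ S → Rc (cm d.snd) := by
    intro d h1 h2
    rw [hRc]
    exact ⟨d.snd, h2, hTind d h1, rfl⟩
  -- the barrier inequality
  have hRH3 : ∀ C ∈ RH, 3 ≤ tC G S T C := by
    intro C hC
    rw [hRHmem] at hC
    have h2 : tC G S T C ≠ 0 := by omega
    rw [htC] at h2
    obtain ⟨d, hd⟩ := Finset.card_ne_zero.1 h2
    simp only [Finset.mem_filter, Finset.mem_univ, true_and] at hd
    have hsS : d.snd ∉ S := by
      intro hs
      have := hRcS _ hs
      rw [hd.2] at this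
      exact this hC.1
    have h3 := (hodd d hd.1 hsS).2
    rw [← hcm, hd.2] at h3
    obtain ⟨k, hk⟩ := h3
    omega
  have hbar' : S.ncard + RH.card + 1 ≤ T.ncard := by
    have e1 : {d : G.Dart | d.fst ∈ T ∧ d.snd ∉ S}.ncard = (DT.filter fun d => d.snd ∉ S).card := by
      rw [ncard_setOf', hDT]
      congr 1
      ext d
      simp
    have e2 : (DT.filter fun d => cm d.snd ∈ RL).card + (DT.filter fun d => cm d.snd ∈ RH).card ≤
        (DT.filter fun d => d.snd ∉ S).card := by
      rw [← Finset.card_union_of_disjoint]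
      · refine Finset.card_le_card ?_
        intro d hd
        simp only [Finset.mem_union, Finset.mem_filter] at hd ⊢
        rcases hd with ⟨h1, h2⟩ | ⟨h1, h2⟩
        · exact ⟨h1, fun hs => hRcS _ hs ((hRLmem _).1 h2).1⟩
        · exact ⟨h1, fun hs => hRcS _ hs ((hRHmem _).1 h2).1⟩
      · rw [Finset.disjoint_left]
        intro d h1 h2
        simp only [Finset.mem_filter] at h1 h2
        exact ((hRHmem _).1 h2.2).2 ((hRLmem _).1 h1.2).2
    have e3 : 3 * RH.card ≤ (DT.filter fun d => cm d.snd ∈ RH).card := by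
      have := Finset.card_eq_sum_card_fiberwise (f := fun d : G.Dart => cm d.snd)
        (s := DT.filter fun d => cm d.snd ∈ RH) (t := RH) (by
          intro d hd
          simp only [Finset.coe_filter, Set.mem_ofPred_eq] at hd
          exact hd.2)
      rw [this]
      have h5 : ∀ C ∈ RH, 3 ≤ ((DT.filter fun d => cm d.snd ∈ RH).filter fun d => cm d.snd = C).card := by
        intro C hC
        have h6 := hRH3 C hC
        rw [htC] at h6
        refine h6.trans (Finset.card_le_card ?_)
        intro d hd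
        simp only [Finset.mem_filter, Finset.mem_univ, true_and] at hd ⊢
        exact ⟨⟨(hDTmem d).2 hd.1, by rw [hd.2]; exact hC⟩, hd.2⟩
      have h7 := Finset.card_nsmul_le_sum RH _ 3 h5
      rw [smul_eq_mul] at h7
      omega
    have e4 : (oddR G S T).ncard ≤ (DT.filter fun d => cm d.snd ∈ RL).card + RH.card := by
      rw [Set.ncard_eq_toFinset_card']
      have h1 : (oddR G S T).toFinset ⊆ ((DT.filter fun d => cm d.snd ∈ RL).image fun d => cm d.snd) ∪ RH := by
        intro C hC
        rw [Set.mem_toFinset] at hC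
        obtain ⟨⟨v, hv1, hv2, hv3⟩, hoddC⟩ := hC
        rw [Finset.mem_union]
        have hRcC : Rc C := by rw [hRc, hcm]; exact ⟨v, hv1, hv2, hv3⟩
        by_cases hle : tC G S T C ≤ 1
        · left
          have h2 : tC G S T C ≠ 0 := by
            intro h0
            rw [h0] at hoddC
            exact absurd hoddC (by decide)
          rw [htC] at h2
          obtain ⟨d, hd⟩ := Finset.card_ne_zero.1 h2
          simp only [Finset.mem_filter, Finset.mem_univ, true_and] at hd
          rw [Finset.mem_image]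
          refine ⟨d, ?_, hd.2⟩
          rw [Finset.mem_filter, hDTmem, hd.2]
          exact ⟨hd.1, (hRLmem _).2 ⟨hRcC, hle⟩⟩
        · right
          exact (hRHmem _).2 ⟨hRcC, hle⟩
      refine (Finset.card_le_card h1).trans ((Finset.card_union_le _ _).trans ?_)
      exact Nat.add_le_add_right Finset.card_image_le _
    rw [e1] at hbar
    omega
  -- darts from T to coloured components
  have hDTc : (DT.filter fun d => c (cm d.snd)).card ≤ RL.card := by
    refine Finset.card_le_card_of_injOn (fun d => cm d.snd) ?_ ?_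
    · intro d hd
      simp only [Finset.coe_filter, Set.mem_ofPred_eq] at hd
      have h1 := hd.2
      rw [hc] at h1
      rcases h1 with ⟨t, ht, ht2⟩ | h1
      · exfalso
        have hdT := (hDTmem d).1 hd.1
        rcases hcmeq _ _ ht2 with h | h
        · exact hTind d hdT (h ▸ ht)
        · exact h.1.2 ht
      · exact (hRLmem _).2 h1
    · intro d hd e he hde
      simp only [Finset.coe_filter, Set.mem_ofPred_eq] at hd he
      have h1 := hd.2
      rw [hc] at h1
      rcases h1 with ⟨t, ht, ht2⟩ | h1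
      · exfalso
        have hdT := (hDTmem d).1 hd.1
        rcases hcmeq _ _ ht2 with h | h
        · exact hTind d hdT (h ▸ ht)
        · exact h.1.2 ht
      · have h2 := h1.2
        rw [htC] at h2
        refine Finset.card_le_one.1 h2 d ?_ e ?_
        · simp only [Finset.mem_filter, Finset.mem_univ, true_and]
          exact ⟨(hDTmem d).1 hd.1, trivial⟩
        · simp only [Finset.mem_filter, Finset.mem_univ, true_and]
          exact ⟨(hDTmem e).1 he.1, hde.symm⟩
  have hDT4 : 4 * T.ncard ≤ DT.card := by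
    rw [Set.ncard_eq_toFinset_card']
    have := Finset.card_eq_sum_card_fiberwise (f := fun d : G.Dart => d.fst)
      (s := DT) (t := T.toFinset) (by
        intro d hd
        rw [Finset.mem_coe, hDTmem] at hd
        rw [Finset.mem_coe, Set.mem_toFinset]
        exact hd)
    rw [this]
    have h5 : ∀ t ∈ T.toFinset, 4 ≤ (DT.filter fun d => d.fst = t).card := by
      intro t ht
      rw [Set.mem_toFinset] at ht
      have h6 := deg_ge h4 t
      rw [ncard_setOf'] at h6
      refine h6.trans (Finset.card_le_card ?_)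
      intro d hd
      simp only [Finset.mem_filter, Finset.mem_univ, true_and] at hd ⊢
      exact ⟨(hDTmem d).2 (by rw [hd]; exact ht), hd⟩
    have h7 := Finset.card_nsmul_le_sum T.toFinset _ 4 h5
    rw [smul_eq_mul] at h7
    omega
  -- pairs with first part in T
  have hE1 : 4 * T.ncard ≤ (Pr.filter fun x => ¬ x.1 ∈ RL).card + RL.card := by
    have h1 : (DT.filter fun d => ¬ c (cm d.snd)).card ≤ (Pr.filter fun x => ¬ x.1 ∈ RL).card := by
      refine Finset.card_le_card_of_injOn (fun d => (cm d.fst, cm d.snd)) ?_ ?_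
      · intro d hd
        simp only [Finset.coe_filter, Set.mem_ofPred_eq] at hd ⊢
        have hdT := (hDTmem d).1 hd.1
        refine ⟨(hPrmem _).2 ⟨?_, hd.2, d, rfl, rfl⟩, fun h => hRcT _ hdT ((hRLmem _).1 h).1⟩
        rw [hc]
        exact Or.inl ⟨d.fst, hdT, rfl⟩
      · intro d hd e he hde
        simp only [Finset.coe_filter, Set.mem_ofPred_eq] at hd he
        have hdT := (hDTmem d).1 hd.1
        rw [Prod.mk.injEq] at hde
        have h2 : d.fst = e.fst := by
          rcases hcmeq _ _ hde.1 with h | h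
          · exact h
          · exact absurd hdT h.1.2
        exact hinj' d e h2 hdT hde.2
    have h2 := Finset.card_filter_add_card_filter_not (s := DT) (fun d => c (cm d.snd))
    omega
  -- pairs with first part in RL
  have hE2 : 3 * RL.card ≤ (Pr.filter fun x => x.1 ∈ RL).card := by
    have := Finset.card_eq_sum_card_fiberwise (f := fun x : (restG G S T).ConnectedComponent × (restG G S T).ConnectedComponent => x.1)
      (s := Pr.filter fun x => x.1 ∈ RL) (t := RL) (by
        intro x hx
        simp only [Finset.coe_filter, Set.mem_ofPred_eq] at hx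
        exact hx.2)
    rw [this]
    have h5 : ∀ C ∈ RL, 3 ≤ ((Pr.filter fun x => x.1 ∈ RL).filter fun x => x.1 = C).card := by
      intro C hC
      obtain ⟨hC1, hC2⟩ := (hRLmem C).1 hC
      have hcC : c C := by rw [hc]; exact Or.inr ⟨hC1, hC2⟩
      obtain ⟨A, hA⟩ : ∃ A : Set V, A = {v | cm v = C} := ⟨_, rfl⟩
      have hAmem : ∀ v, v ∈ A ↔ cm v = C := by intro v; rw [hA]; rfl
      have hAne : A.Nonempty := by
        rw [hRc] at hC1
        obtain ⟨v, _, _, h⟩ := hC1
        exact ⟨v, (hAmem v).2 h⟩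
      have hAR : ∀ v ∈ A, v ∉ S ∧ v ∉ T := by
        intro v hv
        rw [hAmem] at hv
        constructor
        · intro h
          have := hRcS v h
          rw [hv] at this
          exact this hC1
        · intro h
          have := hRcT v h
          rw [hv] at this
          exact this hC1
      -- neighbours of A are in S or T
      have hN : ∀ v, v ∉ A → (∃ a ∈ A, G.Adj a v) → v ∈ S ∨ v ∈ T := by
        rintro v hv ⟨a, ha, hav⟩
        by_contra hcon
        push Not at hcon
        apply hv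
        rw [hAmem] at ha ⊢
        rw [← ha, hcm]
        exact SimpleGraph.ConnectedComponent.eq.2
          (SimpleGraph.Adj.reachable (show (restG G S T).Adj v a from ⟨hav.symm, hcon, hAR a ((hAmem a).2 ha)⟩))
      -- a vertex outside the closed neighbourhood
      have hw : ∃ w, w ∉ A ∧ ∀ a ∈ A, ¬ G.Adj a w := by
        by_contra hcon
        push Not at hcon
        have hTA : ∀ t ∈ T, ∃ a ∈ A, G.Adj a t := fun t ht => hcon t fun h => (hAR t h).2 ht
        have hT1 : T.ncard ≤ 1 := by
          have hch : ∀ t ∈ T, ∃ d : G.Dart, d.fst = t ∧ cm d.snd = C := by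
            intro t ht
            obtain ⟨a, ha, hat⟩ := hTA t ht
            exact ⟨⟨(t, a), hat.symm⟩, rfl, (hAmem a).1 ha⟩
          have hDne : Nonempty G.Dart := by
            obtain ⟨v⟩ := hconn.nonempty
            exact ⟨(hdeg v).choose⟩
          choose! δ hδ using hch
          have h6 : T.ncard ≤ tC G S T C := by
            rw [htC, Set.ncard_eq_toFinset_card']
            refine Finset.card_le_card_of_injOn δ ?_ ?_
            · intro t ht
              rw [Finset.mem_coe, Set.mem_toFinset] at ht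
              simp only [Finset.coe_filter, Finset.mem_univ, true_and, Set.mem_ofPred_eq]
              exact ⟨by rw [(hδ t ht).1]; exact ht, (hδ t ht).2⟩
            · intro t ht t' ht' h
              rw [Finset.mem_coe, Set.mem_toFinset] at ht ht'
              rw [← (hδ t ht).1, ← (hδ t' ht').1, h]
          omega
        have hS0 : S.ncard = 0 := by omega
        have hSe : S = ∅ := (Set.ncard_eq_zero).1 hS0
        have hTe : T.ncard = 1 := by omega
        obtain ⟨t, rfl⟩ := Set.ncard_eq_one.1 hTe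
        -- a dart from t to another component
        have h7 : ∃ d : G.Dart, d.fst = t ∧ cm d.snd ≠ C := by
          by_contra hcon2
          push Not at hcon2
          have h8 := deg_ge h4 t
          rw [ncard_setOf'] at h8
          have h9 : (Finset.univ.filter fun d : G.Dart => d.fst = t).card ≤ 1 := by
            rw [Finset.card_le_one]
            intro d hd e he
            simp only [Finset.mem_filter, Finset.mem_univ, true_and] at hd he
            exact hinj' d e (by rw [hd, he]) (by rw [hd]; rfl) (by rw [hcon2 d hd, hcon2 e he])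
          omega
        obtain ⟨d, hd1, hd2⟩ := h7
        have hdT : d.fst ∈ ({t} : Set V) := by rw [hd1]; rfl
        have hsA : d.snd ∉ A := fun h => hd2 ((hAmem _).1 h)
        rcases hN d.snd hsA (hcon d.snd hsA) with h | h
        · rw [hSe] at h
          exact h
        · exact hTind d hdT h
      obtain ⟨w, hw1, hw2⟩ := hw
      have h6 := four_nbrs h4 A hAne w hw1 hw2
      have h7 : {v | v ∉ A ∧ ∃ a ∈ A, G.Adj a v} ⊆ {v | v ∈ T ∧ ∃ a ∈ A, G.Adj a v} ∪ {v | v ∈ S ∧ ∃ a ∈ A, G.Adj a v} := by
        rintro v ⟨h1, h2⟩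
        rcases hN v h1 h2 with h | h
        · exact Or.inr ⟨h, h2⟩
        · exact Or.inl ⟨h, h2⟩
      have h8 := (Set.ncard_le_ncard h7).trans (Set.ncard_union_le _ _)
      have h9 : {v | v ∈ T ∧ ∃ a ∈ A, G.Adj a v}.ncard ≤ 1 := by
        refine le_trans ?_ hC2
        rw [htC, ncard_setOf']
        have hch : ∀ t, (t ∈ T ∧ ∃ a ∈ A, G.Adj a t) → ∃ d : G.Dart, d.fst = t ∧ cm d.snd = C := by
          rintro t ⟨_, a, ha, hat⟩
          exact ⟨⟨(t, a), hat.symm⟩, rfl, (hAmem a).1 ha⟩
        have hDne : Nonempty G.Dart := by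
          obtain ⟨v⟩ := hconn.nonempty
          exact ⟨(hdeg v).choose⟩
        choose! δ hδ using hch
        refine Finset.card_le_card_of_injOn δ ?_ ?_
        · intro t ht
          simp only [Finset.coe_filter, Finset.mem_univ, true_and, Set.mem_ofPred_eq] at ht ⊢
          exact ⟨by rw [(hδ t ht).1]; exact ht.1, (hδ t ht).2⟩
        · intro t ht t' ht' h
          simp only [Finset.coe_filter, Finset.mem_univ, true_and, Set.mem_ofPred_eq] at ht ht'
          rw [← (hδ t ht).1, ← (hδ t' ht').1, h]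
      have h10 : 3 ≤ {v | v ∈ S ∧ ∃ a ∈ A, G.Adj a v}.ncard := by omega
      rw [ncard_setOf'] at h10
      refine h10.trans (Finset.card_le_card_of_injOn (fun s => (C, cm s)) ?_ ?_)
      · intro s hs
        simp only [Finset.coe_filter, Finset.mem_univ, true_and, Set.mem_ofPred_eq, Finset.mem_filter] at hs ⊢
        obtain ⟨hsS, a, ha, has⟩ := hs
        refine ⟨⟨(hPrmem _).2 ⟨hcC, ?_, ⟨(a, s), has⟩, (hAmem a).1 ha, rfl⟩, hC⟩, trivial⟩
        intro hcs
        rw [hc] at hcs
        rcases hcs with ⟨t, ht, ht2⟩ | hcs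
        · rcases hcmeq _ _ ht2 with h | h
          · exact hdisj s hsS (h ▸ ht)
          · exact h.1.2 ht
        · exact hRcS s hsS hcs.1
      · intro s hs s' hs' h
        simp only [Finset.coe_filter, Finset.mem_univ, true_and, Set.mem_ofPred_eq] at hs hs'
        have h11 : cm s = cm s' := (Prod.mk.inj h).2
        rcases hcmeq _ _ h11 with h | h
        · exact h
        · exact absurd hs.1 h.1.1
    have h7 := Finset.card_nsmul_le_sum RL _ 3 h5
    rw [smul_eq_mul] at h7
    omega
  have hsum := Finset.card_filter_add_card_filter_not (s := Pr) (fun x => x.1 ∈ RL)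
  omega

end Pool.Agent.H41.TF
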