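import Mathlib

/-!
# Rooted forests in simple graphs  (MP_d78700_co)
-/

set_option autoImplicit false

open Finset

namespace Pool.Agent.H41.TF

theorem exists_step {W : Type*} {H : SimpleGraph W} {w r : W} (p : H.Walk w r) (hw : w ≠ r)
    (hp : p.length = H.dist w r) : ∃ x, H.Adj w x ∧ H.dist x r < H.dist w r := by
  cases p with
  | nil => exact absurd rfl hw
  | @cons _ x _ hadj q =>
    refine ⟨x, hadj, ?_⟩
    have h1 : H.dist x r ≤ q.length := SimpleGraph.dist_le q
    rw [SimpleGraph.Walk.length_cons] at hp
    omega

/-- root, parent and height functions of a spanning forest -/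
theorem exists_parent {W : Type*} (H : SimpleGraph W) :
    ∃ (root : H.ConnectedComponent → W) (par : W → W) (ht : W → ℕ),
      (∀ c, H.connectedComponentMk (root c) = c) ∧
      (∀ w, w ≠ root (H.connectedComponentMk w) → H.Adj w (par w) ∧ ht (par w) < ht w) := by
  have hroot : ∀ c : H.ConnectedComponent, ∃ w, H.connectedComponentMk w = c := fun c => by
    induction c using SimpleGraph.ConnectedComponent.ind with
    | _ v => exact ⟨v, rfl⟩
  choose root hr using hroot
  have hpar : ∀ w, ∃ x, w ≠ root (H.connectedComponentMk w) →
      H.Adj w x ∧ H.dist x (root (H.connectedComponentMk x)) < H.dist w (root (H.connectedComponentMk w)) := by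
    intro w
    by_cases hw : w = root (H.connectedComponentMk w)
    · exact ⟨w, fun h => absurd hw h⟩
    · have hreach : H.Reachable w (root (H.connectedComponentMk w)) := by
        rw [← SimpleGraph.ConnectedComponent.eq, hr]
      obtain ⟨p, hp⟩ := hreach.exists_walk_length_eq_dist
      obtain ⟨x, hadj, hx⟩ := exists_step p hw hp
      refine ⟨x, fun _ => ⟨hadj, ?_⟩⟩
      have hc : H.connectedComponentMk x = H.connectedComponentMk w :=
        SimpleGraph.ConnectedComponent.eq.2 hadj.symm.reachable
      rw [hc]
      exact hx
  choose par hp using hpar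
  exact ⟨root, par, fun w => H.dist w (root (H.connectedComponentMk w)), hr, hp⟩

/-- a graph has at least `vertices - edges` components; form with labelled edges -/
theorem card_le_components {W : Type*} [Finite W] (H : SimpleGraph W) {E : Type*} (S : Finset E)
    (g : E → Sym2 W) (hg : ∀ x y, H.Adj x y → ∃ e ∈ S, g e = s(x, y)) :
    Nat.card W ≤ Nat.card H.ConnectedComponent + S.card := by
  classical
  obtain ⟨root, par, ht, hr, hp⟩ := exists_parent H
  have hch : ∀ w, w ≠ root (H.connectedComponentMk w) → ∃ e : S, g e = s(w, par w) := by
    intro w hw
    obtain ⟨e, he, hge⟩ := hg _ _ (hp w hw).1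
    exact ⟨⟨e, he⟩, hge⟩
  choose e he using hch
  let F : W → H.ConnectedComponent ⊕ S := fun w =>
    if hw : w ≠ root (H.connectedComponentMk w) then Sum.inr (e w hw) else Sum.inl (H.connectedComponentMk w)
  have hF : Function.Injective F := by
    intro w w' hww
    by_cases hw : w ≠ root (H.connectedComponentMk w)
    · by_cases hw' : w' ≠ root (H.connectedComponentMk w')
      · have h1 : e w hw = e w' hw' := by
          have : F w = Sum.inr (e w hw) := dif_pos hw
          have h' : F w' = Sum.inr (e w' hw') := dif_pos hw'
          rw [this, h'] at hww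
          exact Sum.inr_injective hww
        have h2 : s(w, par w) = s(w', par w') := by rw [← he w hw, ← he w' hw', h1]
        rcases Sym2.eq_iff.1 h2 with ⟨h3, _⟩ | ⟨h3, h4⟩
        · exact h3
        · have a1 := (hp w hw).2
          have a2 := (hp w' hw').2
          rw [h4] at a1
          rw [← h3] at a2
          omega
      · have : F w = Sum.inr (e w hw) := dif_pos hw
        have h' : F w' = Sum.inl _ := dif_neg hw'
        rw [this, h'] at hww
        exact absurd hww (by simp)
    · by_cases hw' : w' ≠ root (H.connectedComponentMk w')
      · have : F w = Sum.inl _ := dif_neg hw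
        have h' : F w' = Sum.inr (e w' hw') := dif_pos hw'
        rw [this, h'] at hww
        exact absurd hww (by simp)
      · have : F w = Sum.inl _ := dif_neg hw
        have h' : F w' = Sum.inl _ := dif_neg hw'
        rw [this, h'] at hww
        have h5 := Sum.inl_injective hww
        push Not at hw hw'
        rw [hw, hw', h5]
  have := Nat.card_le_card_of_injective F hF
  rw [Nat.card_sum] at this
  simpa using this

end Pool.Agent.H41.TF
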