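import Pool.Agent.H41.TF.TutteMin

/-!
# The 2-factor gadget  (MP_d78700_co)
-/

set_option autoImplicit false

namespace Pool.Agent.H41.TF

variable {V : Type*}

/-- two copies of every vertex and one vertex for every dart -/
abbrev GW (G : SimpleGraph V) := (V × Bool) ⊕ G.Dart

/-- the gadget graph -/
def gad (G : SimpleGraph V) : SimpleGraph (GW G) where
  Adj x y := match x, y with
    | Sum.inl a, Sum.inr d => d.fst = a.1
    | Sum.inr d, Sum.inl a => d.fst = a.1
    | Sum.inr d, Sum.inr e => e = d.symm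
    | Sum.inl _, Sum.inl _ => False
  symm := ⟨by
    rintro (a | d) (b | e) h
    · exact h
    · exact h
    · exact h
    · change e = d.symm at h
      change d = e.symm
      rw [h, SimpleGraph.Dart.symm_symm]⟩
  loopless := ⟨by
    rintro (a | d) h
    · exact h
    · exact d.symm_ne h.symm⟩

variable {G : SimpleGraph V}

theorem gad_lr {a : V × Bool} {d : G.Dart} : (gad G).Adj (Sum.inl a) (Sum.inr d) ↔ d.fst = a.1 := Iff.rfl
theorem gad_rl {a : V × Bool} {d : G.Dart} : (gad G).Adj (Sum.inr d) (Sum.inl a) ↔ d.fst = a.1 := Iff.rfl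
theorem gad_rr {d e : G.Dart} : (gad G).Adj (Sum.inr d) (Sum.inr e) ↔ e = d.symm := Iff.rfl
theorem gad_ll {a b : V × Bool} : ¬ (gad G).Adj (Sum.inl a) (Sum.inl b) := fun h => h

/-- a perfect matching of the gadget gives a 2-factor -/
theorem two_factor_of_matching (M : (gad G).Subgraph) (hM : M.IsPerfectMatching) :
    ∃ F : SimpleGraph V, F ≤ G ∧ ∀ v, (F.neighborSet v).ncard = 2 := by
  have hex : ∀ x, ∃! y, M.Adj x y := SimpleGraph.Subgraph.isPerfectMatching_iff.1 hM
  let F : SimpleGraph V :=
    { Adj := fun u v => ∃ d : G.Dart, d.fst = u ∧ d.snd = v ∧ ¬ M.Adj (Sum.inr d) (Sum.inr d.symm)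
      symm := ⟨by
        rintro u v ⟨d, h1, h2, h3⟩
        refine ⟨d.symm, h2, h1, fun h => h3 ?_⟩
        rw [SimpleGraph.Dart.symm_symm] at h
        exact h.symm⟩
      loopless := ⟨by
        rintro u ⟨d, h1, h2, _⟩
        have := d.adj
        rw [h1, h2] at this
        exact this.ne rfl⟩ }
  have hF : ∀ u v, F.Adj u v ↔ ∃ d : G.Dart, d.fst = u ∧ d.snd = v ∧ ¬ M.Adj (Sum.inr d) (Sum.inr d.symm) :=
    fun u v => Iff.rfl
  refine ⟨F, ?_, ?_⟩
  · rintro u v ⟨d, h1, h2, _⟩
    have := d.adj
    rwa [h1, h2] at this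
  · intro v
    have hb : ∀ b : Bool, ∃ d : G.Dart, d.fst = v ∧ M.Adj (Sum.inl (v, b)) (Sum.inr d) := by
      intro b
      obtain ⟨y, hy, _⟩ := hex (Sum.inl (v, b))
      rcases y with a | d
      · exact absurd (M.adj_sub hy) gad_ll
      · exact ⟨d, gad_lr.1 (M.adj_sub hy), hy⟩
    obtain ⟨d0, h0, hM0⟩ := hb false
    obtain ⟨d1, h1, hM1⟩ := hb true
    have hne : d0 ≠ d1 := by
      rintro rfl
      obtain ⟨y, _, hu⟩ := hex (Sum.inr d0)
      have a := hu _ hM0.symm
      have b := hu _ hM1.symm
      rw [← b] at a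
      simp at a
    have hset : F.neighborSet v = {d0.snd, d1.snd} := by
      ext w
      rw [SimpleGraph.mem_neighborSet, hF]
      constructor
      · rintro ⟨d, hd1, hd2, hd3⟩
        obtain ⟨y, hy, hu⟩ := hex (Sum.inr d)
        rcases y with ⟨a, b⟩ | e
        · have h3 : d.fst = a := gad_rl.1 (M.adj_sub hy)
          rw [hd1] at h3
          subst h3
          obtain ⟨z, _, hz⟩ := hex (Sum.inl (v, b))
          cases b
          · have e1 := hz _ hy.symm
            have e2 := hz _ hM0
            rw [← e2] at e1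
            left
            rw [← hd2, Sum.inr_injective e1]
          · have e1 := hz _ hy.symm
            have e2 := hz _ hM1
            rw [← e2] at e1
            right
            rw [← hd2, Sum.inr_injective e1]
            rfl
        · have h3 : e = d.symm := gad_rr.1 (M.adj_sub hy)
          rw [h3] at hy
          exact absurd hy hd3
      · have aux : ∀ (b : Bool) (d : G.Dart), d.fst = v → M.Adj (Sum.inl (v, b)) (Sum.inr d) →
            ¬ M.Adj (Sum.inr d) (Sum.inr d.symm) := by
          intro b d _ hMd hcon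
          obtain ⟨y, _, hu⟩ := hex (Sum.inr d)
          have e1 := hu _ hMd.symm
          have e2 := hu _ hcon
          rw [← e2] at e1
          simp at e1
        rintro (rfl | hw)
        · exact ⟨d0, h0, rfl, aux false d0 h0 hM0⟩
        · rw [Set.mem_singleton_iff] at hw
          exact ⟨d1, h1, hw.symm, aux true d1 h1 hM1⟩
    rw [hset, Set.ncard_pair]
    intro h
    apply hne
    refine SimpleGraph.Dart.ext _ _ (Prod.ext ?_ h)
    change d0.fst = d1.fst
    rw [h0, h1]

end Pool.Agent.H41.TF
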