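import Pool.Agent.H41.TF.Gadget
import Pool.Agent.H41.TF.Density

/-!
# Structure of minimal barriers for 2-factors  (MP_d78700_co)
-/

set_option autoImplicit false

namespace Pool.Agent.H41.TF

section general
variable {W : Type*}

theorem comp_eq {Γ : SimpleGraph W} {U K K' : Set W} (hK : IsComp Γ U K) (hK' : IsComp Γ U K') {x : W}
    (h : x ∈ K) (h' : x ∈ K') : K = K' :=
  Set.Subset.antisymm (hK.2.2.1 K' hK'.2.2.2 ⟨x, h, h'⟩) (hK'.2.2.1 K hK.2.2.2 ⟨x, h', h⟩)

theorem ncard_le_of_meet [Finite W] {Γ : SimpleGraph W} {U : Set W} (𝒜 : Set (Set W)) (h𝒜 : 𝒜 ⊆ OddC Γ U)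
    (F : Set W) (hF : ∀ K ∈ 𝒜, ∃ x ∈ F, x ∈ K) : 𝒜.ncard ≤ F.ncard := by
  by_cases hW : Nonempty W
  swap
  · have : 𝒜 = ∅ := by
      rw [Set.eq_empty_iff_forall_notMem]
      intro K hK
      obtain ⟨x, _⟩ := hF K hK
      exact hW ⟨x⟩
    rw [this, Set.ncard_empty]
    exact Nat.zero_le _
  choose! φ hφ using hF
  exact Set.ncard_le_ncard_of_injOn φ (fun K hK => (hφ K hK).1) (fun K hK K' hK' h => by
    refine comp_eq (h𝒜 hK).1 (h𝒜 hK').1 (hφ K hK).2 ?_
    rw [h]
    exact (hφ K' hK').2)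

theorem even_ncard_of_inv [Finite W] (A : Set W) (g : W → W) (h1 : ∀ x ∈ A, g x ∈ A)
    (h2 : ∀ x ∈ A, g (g x) = x) (h3 : ∀ x ∈ A, g x ≠ x) : Even A.ncard := by
  classical
  have := Fintype.ofFinite W
  rw [Set.ncard_eq_toFinset_card']
  refine even_card_of_inv _ g ?_ ?_ ?_
  · intro x hx
    rw [Set.mem_toFinset] at hx ⊢
    exact h1 x hx
  · intro x hx
    rw [Set.mem_toFinset] at hx
    exact h2 x hx
  · intro x hx
    rw [Set.mem_toFinset] at hx
    exact h3 x hx

end general

variable {V : Type*} {G : SimpleGraph V}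

/-- the graph `G` restricted to the vertices outside `S` and `T` -/
def restG (G : SimpleGraph V) (S T : Set V) : SimpleGraph V where
  Adj u v := G.Adj u v ∧ (u ∉ S ∧ u ∉ T) ∧ (v ∉ S ∧ v ∉ T)
  symm := ⟨fun _ _ h => ⟨h.1.symm, h.2.2, h.2.1⟩⟩
  loopless := ⟨fun _ h => h.1.ne rfl⟩

theorem restG_le (S T : Set V) : restG G S T ≤ G := fun _ _ h => h.1

/-- component of the rest graph -/
abbrev cmR (G : SimpleGraph V) (S T : Set V) : V → (restG G S T).ConnectedComponent :=
  (restG G S T).connectedComponentMk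

theorem cmR_eq_iff (S T : Set V) {u v : V} (h : cmR G S T u = cmR G S T v) :
    u = v ∨ ((u ∉ S ∧ u ∉ T) ∧ (v ∉ S ∧ v ∉ T)) := by
  rw [SimpleGraph.ConnectedComponent.eq] at h
  obtain ⟨p⟩ := h
  cases p with
  | nil => exact Or.inl rfl
  | @cons _ x _ hadj q =>
    right
    refine ⟨hadj.2.1, ?_⟩
    have : ∀ (a b : V) (q : (restG G S T).Walk a b), (a ∉ S ∧ a ∉ T) → (b ∉ S ∧ b ∉ T) := by
      intro a b q
      induction q with
      | nil => exact id
      | @cons _ y _ hadj' _ ih => exact fun _ => ih hadj'.2.2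
    exact this _ _ q hadj.2.2

/-- number of darts from `T` to the component `C` -/
noncomputable def tC (G : SimpleGraph V) (S T : Set V) (C : (restG G S T).ConnectedComponent) : ℕ :=
  {d : G.Dart | d.fst ∈ T ∧ cmR G S T d.snd = C}.ncard

/-- the components with vertices outside `S` and `T` and an odd number of darts from `T` -/
def oddR (G : SimpleGraph V) (S T : Set V) : Set (restG G S T).ConnectedComponent :=
  {C | (∃ v, v ∉ S ∧ v ∉ T ∧ cmR G S T v = C) ∧ Odd (tC G S T C)}

/-- barrier structure in a graph without a 2-factor -/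
theorem barrier [Finite V] (hdeg : ∀ v, ∃ d : G.Dart, d.fst = v)
    (hno : ¬ ∃ F : SimpleGraph V, F ≤ G ∧ ∀ v, (F.neighborSet v).ncard = 2) :
    ∃ S T : Set V, Disjoint S T ∧ (∀ d : G.Dart, d.fst ∈ T → d.snd ∉ T) ∧
      (∀ d d' : G.Dart, d.fst = d'.fst → d.fst ∈ T → d.snd ∉ S → d'.snd ∉ S →
        cmR G S T d.snd = cmR G S T d'.snd → d = d') ∧
      (∀ d : G.Dart, d.fst ∈ T → d.snd ∉ S → cmR G S T d.snd ∈ oddR G S T) ∧
      2 * S.ncard + {d : G.Dart | d.fst ∈ T ∧ d.snd ∉ S}.ncard + 2 ≤ 2 * T.ncard + (oddR G S T).ncard := by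
  have hW : Even (Nat.card (GW G)) := by
    rw [Nat.card_sum, Nat.card_prod]
    have h1 : Even (Nat.card G.Dart) := by
      rw [← Set.ncard_univ]
      exact even_ncard_of_inv _ (fun d : G.Dart => d.symm) (fun _ _ => trivial) (fun d _ => d.symm_symm)
        (fun d _ => d.symm_ne)
    have h2 : Nat.card Bool = 2 := by simp
    rw [h2]
    exact (even_two.mul_left _).add h1
  obtain ⟨U, hU, hX⟩ := exists_min_violator (gad G) hW fun M hM => hno (two_factor_of_matching M hM)
  have hAdjsub : ∀ X, AdjC (gad G) U X ⊆ OddC (gad G) U := fun X K hK => hK.1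
  have hnotU : ∀ K ∈ OddC (gad G) U, ∀ x ∈ K, x ∉ U := fun K hK x hx h => Set.disjoint_left.1 hK.1.2.1 hx h
  -- (S1)
  have hS1 : ∀ v b, Sum.inl (v, b) ∈ U → Sum.inl (v, !b) ∈ U := by
    intro v b hvb
    by_contra hcon
    have h1 := hX {Sum.inl (v, b)} (Set.singleton_subset_iff.2 hvb) (Set.singleton_nonempty _)
    have h2 := ncard_le_of_meet (AdjC (gad G) U {Sum.inl (v, b)}) (hAdjsub _) {Sum.inl (v, !b)} (by
      rintro K ⟨hK, x, hx, y, hy, hxy⟩
      rw [Set.mem_singleton_iff] at hx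
      subst hx
      refine ⟨Sum.inl (v, !b), rfl, ?_⟩
      rcases y with a | d
      · exact absurd hxy gad_ll
      · exact hK.1.2.2.2 _ hy _ hcon (gad_rl.2 (gad_lr.1 hxy)))
    rw [Set.ncard_singleton] at h1 h2
    omega
  have hS1' : ∀ v b b', Sum.inl (v, b) ∈ U → Sum.inl (v, b') ∈ U := by
    intro v b b' h
    by_cases hb : b' = b
    · rw [hb]; exact h
    · have : b' = !b := by cases b <;> cases b' <;> simp_all
      rw [this]
      exact hS1 v b h
  -- (S2)
  have hS2 : ∀ d : G.Dart, Sum.inr d ∈ U → ∀ b, Sum.inl (d.fst, b) ∉ U := by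
    intro d hd b hb
    have h1 := hX {Sum.inr d} (Set.singleton_subset_iff.2 hd) (Set.singleton_nonempty _)
    have h2 := ncard_le_of_meet (AdjC (gad G) U {Sum.inr d}) (hAdjsub _) {Sum.inr d.symm} (by
      rintro K ⟨hK, x, hx, y, hy, hxy⟩
      rw [Set.mem_singleton_iff] at hx
      subst hx
      refine ⟨Sum.inr d.symm, rfl, ?_⟩
      rcases y with ⟨a, b'⟩ | e
      · exfalso
        have h3 : d.fst = a := gad_rl.1 hxy
        refine hnotU K hK _ hy ?_
        rw [← h3]
        exact hS1' _ _ _ hb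
      · rw [← gad_rr.1 hxy]; exact hy)
    rw [Set.ncard_singleton] at h1 h2
    omega
  -- (S3)
  have hS3 : ∀ d e : G.Dart, Sum.inr d ∈ U → e.fst = d.fst → Sum.inr e ∈ U := by
    intro d e hd hed
    by_contra hcon
    have h1 := hX {Sum.inr d} (Set.singleton_subset_iff.2 hd) (Set.singleton_nonempty _)
    have h2 := ncard_le_of_meet (AdjC (gad G) U {Sum.inr d}) (hAdjsub _) {Sum.inr e, Sum.inr d.symm} (by
      rintro K ⟨hK, x, hx, y, hy, hxy⟩
      rw [Set.mem_singleton_iff] at hx
      subst hx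
      rcases y with ⟨a, b'⟩ | e'
      · have h3 : d.fst = a := gad_rl.1 hxy
        refine ⟨Sum.inr e, Set.mem_insert _ _, ?_⟩
        refine hK.1.2.2.2 _ hy _ hcon (gad_lr.2 ?_)
        rw [hed, h3]
      · refine ⟨Sum.inr d.symm, Set.mem_insert_of_mem _ rfl, ?_⟩
        rw [← gad_rr.1 hxy]; exact hy)
    rw [Set.ncard_singleton] at h1
    have h3 := Set.ncard_insert_le (Sum.inr e : GW G) {Sum.inr d.symm}
    rw [Set.ncard_singleton] at h3
    omega
  obtain ⟨S, hS⟩ : ∃ S : Set V, S = {v | Sum.inl (v, false) ∈ U} := ⟨_, rfl⟩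
  obtain ⟨T, hT⟩ : ∃ T : Set V, T = {v | ∃ d : G.Dart, d.fst = v ∧ Sum.inr d ∈ U} := ⟨_, rfl⟩
  have fS : ∀ v b, Sum.inl (v, b) ∈ U ↔ v ∈ S := by
    intro v b
    rw [hS]
    exact ⟨hS1' v b false, hS1' v false b⟩
  have fT : ∀ d : G.Dart, Sum.inr d ∈ U ↔ d.fst ∈ T := by
    intro d
    rw [hT]
    constructor
    · intro h; exact ⟨d, rfl, h⟩
    · rintro ⟨e, he, heU⟩
      exact hS3 e d heU he.symm
  have hdisj : ∀ v ∈ T, v ∉ S := by
    intro v hv hvS
    rw [hT] at hv
    obtain ⟨d, hd, hdU⟩ := hv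
    exact hS2 d hdU false (by rw [hd, fS]; exact hvS)
  -- singleton components
  have hclT : ∀ K ∈ OddC (gad G) U, ∀ v b, v ∈ T → Sum.inl (v, b) ∈ K → K = {Sum.inl (v, b)} := by
    intro K hK v b hv hx
    refine Set.Subset.antisymm (hK.1.2.2.1 _ ?_ ⟨_, hx, rfl⟩) (Set.singleton_subset_iff.2 hx)
    intro x hx' y hy hxy
    rw [Set.mem_singleton_iff] at hx'
    subst hx'
    exfalso
    rcases y with a | d
    · exact gad_ll hxy
    · refine hy ((fT d).2 ?_)
      have : d.fst = v := gad_lr.1 hxy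
      rw [this]; exact hv
  -- (S4)
  have hS4 : ∀ t ∈ T, (∀ d : G.Dart, d.fst = t → ∃ K ∈ OddC (gad G) U, Sum.inr d.symm ∈ K) ∧
      (∀ d d' : G.Dart, d.fst = t → d'.fst = t → ∀ K ∈ OddC (gad G) U, Sum.inr d.symm ∈ K → Sum.inr d'.symm ∈ K → d = d') := by
    intro t ht
    obtain ⟨D, hD⟩ : ∃ D : Set G.Dart, D = {d | d.fst = t} := ⟨_, rfl⟩
    obtain ⟨𝒦, h𝒦⟩ : ∃ 𝒦 : Set (Set (GW G)), 𝒦 = {K | K ∈ OddC (gad G) U ∧ ∃ d ∈ D, Sum.inr d.symm ∈ K} := ⟨_, rfl⟩
    have hDU : (Sum.inr '' D : Set (GW G)) ⊆ U := by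
      rintro _ ⟨d, hd, rfl⟩
      rw [hD] at hd
      rw [fT, hd]; exact ht
    have hDne : (Sum.inr '' D : Set (GW G)).Nonempty := by
      obtain ⟨d, hd⟩ := hdeg t
      refine ⟨Sum.inr d, d, ?_, rfl⟩
      rw [hD]; exact hd
    have h1 := hX _ hDU hDne
    rw [Set.ncard_image_of_injective _ Sum.inr_injective] at h1
    have h2 : AdjC (gad G) U (Sum.inr '' D) ⊆ 𝒦 ∪ {{Sum.inl (t, false)}, {Sum.inl (t, true)}} := by
      rintro K ⟨hK, _, ⟨d, hd, rfl⟩, y, hy, hxy⟩
      have hd' : d.fst = t := by rw [hD] at hd; exact hd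
      rcases y with ⟨a, b⟩ | e
      · right
        have h3 : d.fst = a := gad_rl.1 hxy
        rw [hd'] at h3
        subst h3
        have := hclT K hK t b ht hy
        rw [this]
        cases b
        · exact Set.mem_insert _ _
        · exact Set.mem_insert_of_mem _ rfl
      · left
        rw [h𝒦]
        refine ⟨hK, d, hd, ?_⟩
        rw [← gad_rr.1 hxy]; exact hy
    have h3 : D.ncard ≤ 𝒦.ncard := by
      have a1 := Set.ncard_le_ncard h2
      have a2 := Set.ncard_union_le 𝒦 {{Sum.inl (t, false)}, {Sum.inl (t, true)}}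
      have a3 := Set.ncard_insert_le ({Sum.inl (t, false)} : Set (GW G)) {{Sum.inl (t, true)}}
      rw [Set.ncard_singleton] at a3
      omega
    have h𝒦odd : ∀ K ∈ 𝒦, K ∈ OddC (gad G) U := fun K hK => by rw [h𝒦] at hK; exact hK.1
    have hch : ∀ K ∈ 𝒦, ∃ d ∈ D, Sum.inr d.symm ∈ K := fun K hK => by rw [h𝒦] at hK; exact hK.2
    have hDart : Nonempty G.Dart := ⟨(hdeg t).choose⟩
    choose! δ hδ using hch
    have hinj : Set.InjOn δ 𝒦 := by
      intro K hK K' hK' h
      refine comp_eq (h𝒦odd K hK).1 (h𝒦odd K' hK').1 (hδ K hK).2 ?_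
      rw [h]
      exact (hδ K' hK').2
    have himg : δ '' 𝒦 = D := by
      refine Set.eq_of_subset_of_ncard_le ?_ ?_
      · rintro _ ⟨K, hK, rfl⟩
        exact (hδ K hK).1
      · rw [Set.InjOn.ncard_image hinj]
        exact h3
    constructor
    · intro d hd
      have : d ∈ δ '' 𝒦 := by rw [himg, hD]; exact hd
      obtain ⟨K, hK, rfl⟩ := this
      exact ⟨K, h𝒦odd K hK, (hδ K hK).2⟩
    · intro d d' hd hd' K hK hdK hdK'
      have m1 : d ∈ δ '' 𝒦 := by rw [himg, hD]; exact hd
      have m2 : d' ∈ δ '' 𝒦 := by rw [himg, hD]; exact hd'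
      obtain ⟨K1, hK1, e1⟩ := m1
      obtain ⟨K2, hK2, e2⟩ := m2
      have b1 : K1 = K := comp_eq (h𝒦odd K1 hK1).1 hK.1 (e1 ▸ (hδ K1 hK1).2) hdK
      have b2 : K2 = K := comp_eq (h𝒦odd K2 hK2).1 hK.1 (e2 ▸ (hδ K2 hK2).2) hdK'
      rw [← e1, ← e2, b1, b2]
  have hTind : ∀ d : G.Dart, d.fst ∈ T → d.snd ∉ T := by
    intro d hd hd'
    obtain ⟨K, hK, hdK⟩ := (hS4 _ hd).1 d rfl
    exact hnotU K hK _ hdK ((fT d.symm).2 hd')
  -- description of the components with vertices outside `S` and `T`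
  have hKC : ∀ K ∈ OddC (gad G) U, ∀ v, v ∉ S → v ∉ T → Sum.inl (v, false) ∈ K →
      (∀ w b, Sum.inl (w, b) ∈ K ↔ cmR G S T w = cmR G S T v) ∧
      (∀ d : G.Dart, Sum.inr d ∈ K ↔ (cmR G S T d.fst = cmR G S T v ∨ (d.fst ∈ S ∧ cmR G S T d.snd = cmR G S T v))) := by
    intro K hK v hvS hvT hvK
    -- closure
    have hup : ∀ w b, w ∉ S → w ∉ T → Sum.inl (w, b) ∈ K → ∀ b', Sum.inl (w, b') ∈ K := by
      intro w b hwS hwT hw b'
      obtain ⟨d, hd⟩ := hdeg w
      have h1 : Sum.inr d ∈ K := hK.1.2.2.2 _ hw _ (by rw [fT, hd]; exact hwT) (gad_lr.2 hd)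
      exact hK.1.2.2.2 _ h1 _ (by rw [fS]; exact hwS) (gad_rl.2 hd)
    have hwalk : ∀ (a c : V) (p : (restG G S T).Walk a c), (a ∉ S ∧ a ∉ T) → (∀ b, Sum.inl (a, b) ∈ K) →
        (∀ b, Sum.inl (c, b) ∈ K) := by
      intro a c p
      induction p with
      | nil => exact fun _ h => h
      | @cons x y z hadj q ih =>
        intro hx hxK
        refine ih hadj.2.2 ?_
        have hd : (⟨(x, y), hadj.1⟩ : G.Dart).fst = x := rfl
        have h1 : Sum.inr (⟨(x, y), hadj.1⟩ : G.Dart) ∈ K :=
          hK.1.2.2.2 _ (hxK false) _ (by rw [fT]; exact hx.2) (gad_lr.2 rfl)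
        have h2 : Sum.inr (⟨(x, y), hadj.1⟩ : G.Dart).symm ∈ K :=
          hK.1.2.2.2 _ h1 _ (by rw [fT]; exact hadj.2.2.2) (gad_rr.2 rfl)
        intro b
        exact hK.1.2.2.2 _ h2 _ (by rw [fS]; exact hadj.2.2.1) (gad_rl.2 rfl)
    have hall : ∀ w, cmR G S T w = cmR G S T v → ∀ b, Sum.inl (w, b) ∈ K := by
      intro w hw
      have := SimpleGraph.ConnectedComponent.eq.1 hw.symm
      obtain ⟨p⟩ := this
      exact hwalk _ _ p ⟨hvS, hvT⟩ (hup v false hvS hvT hvK)
    have hR : ∀ w, cmR G S T w = cmR G S T v → w ∉ S ∧ w ∉ T := by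
      intro w hw
      rcases cmR_eq_iff S T hw with h | h
      · rw [h]; exact ⟨hvS, hvT⟩
      · exact h.1
    have hadjC : ∀ d : G.Dart, cmR G S T d.fst = cmR G S T v → d.snd ∉ S → d.snd ∉ T →
        cmR G S T d.snd = cmR G S T v := by
      intro d hd h1 h2
      rw [← hd]
      refine SimpleGraph.ConnectedComponent.eq.2 (SimpleGraph.Adj.reachable ?_)
      exact ⟨d.adj.symm, ⟨h1, h2⟩, hR _ hd⟩
    obtain ⟨A, hA⟩ : ∃ A : Set (GW G), A = {x | (∃ w b, x = Sum.inl (w, b) ∧ cmR G S T w = cmR G S T v) ∨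
        (∃ d : G.Dart, x = Sum.inr d ∧ (cmR G S T d.fst = cmR G S T v ∨ (d.fst ∈ S ∧ cmR G S T d.snd = cmR G S T v)))} :=
      ⟨_, rfl⟩
    have hKA : K ⊆ A := by
      refine hK.1.2.2.1 A ?_ ⟨Sum.inl (v, false), hvK, ?_⟩
      · intro x hx y hy hxy
        rw [hA] at hx ⊢
        rcases hx with ⟨w, b, rfl, hw⟩ | ⟨d, rfl, hd⟩
        · rcases y with a | e
          · exact absurd hxy gad_ll
          · right
            refine ⟨e, rfl, Or.inl ?_⟩
            rw [show e.fst = w from gad_lr.1 hxy]; exact hw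
        · rcases y with ⟨a, b⟩ | e
          · have h1 : d.fst = a := gad_rl.1 hxy
            rcases hd with hd | hd
            · left
              exact ⟨a, b, rfl, by rw [← h1]; exact hd⟩
            · exfalso
              rw [fS, ← h1] at hy
              exact hy hd.1
          · have h1 : e = d.symm := gad_rr.1 hxy
            subst h1
            right
            refine ⟨d.symm, rfl, ?_⟩
            rw [fT] at hy
            rcases hd with hd | hd
            · by_cases hsS : d.snd ∈ S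
              · right
                exact ⟨hsS, hd⟩
              · left
                exact hadjC d hd hsS hy
            · left
              exact hd.2
      · rw [hA]
        left
        exact ⟨v, false, rfl, rfl⟩
    constructor
    · intro w b
      constructor
      · intro h
        have := hKA h
        rw [hA] at this
        rcases this with ⟨w', b', h1, h2⟩ | ⟨d, h1, _⟩
        · have := Sum.inl_injective h1
          rw [Prod.mk.injEq] at this
          rw [this.1]; exact h2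
        · exact absurd h1 (by simp)
      · intro h
        exact hall w h b
    · intro d
      constructor
      · intro h
        have := hKA h
        rw [hA] at this
        rcases this with ⟨w', b', h1, _⟩ | ⟨d', h1, h2⟩
        · exact absurd h1 (by simp)
        · have := Sum.inr_injective h1
          rw [this]; exact h2
      · rintro (h | ⟨h1, h2⟩)
        · exact hK.1.2.2.2 _ (hall _ h false) _ (by rw [fT]; exact (hR _ h).2) (gad_lr.2 rfl)
        · have h3 : Sum.inr d.symm ∈ K :=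
            hK.1.2.2.2 _ (hall _ h2 false) _ (by rw [fT]; exact (hR _ h2).2) (gad_lr.2 rfl)
          refine hK.1.2.2.2 _ h3 _ ?_ (gad_rr.2 (SimpleGraph.Dart.symm_symm d).symm)
          rw [fT]
          exact fun h4 => hdisj _ h4 h1
  -- parity
  have hpar : ∀ K ∈ OddC (gad G) U, ∀ v, v ∉ S → v ∉ T → Sum.inl (v, false) ∈ K →
      Odd (tC G S T (cmR G S T v)) := by
    intro K hK v hvS hvT hvK
    obtain ⟨hk1, hk2⟩ := hKC K hK v hvS hvT hvK
    have hR : ∀ w, cmR G S T w = cmR G S T v → w ∉ S ∧ w ∉ T := by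
      intro w hw
      rcases cmR_eq_iff S T hw with h | h
      · rw [h]; exact ⟨hvS, hvT⟩
      · exact h.1
    obtain ⟨Z, hZ⟩ : ∃ Z : Set G.Dart, Z = {d | cmR G S T d.fst = cmR G S T v ∧ d.snd ∈ T} := ⟨_, rfl⟩
    have hZK : (Sum.inr '' Z : Set (GW G)) ⊆ K := by
      rintro _ ⟨d, hd, rfl⟩
      rw [hZ] at hd
      exact (hk2 d).2 (Or.inl hd.1)
    have hZc : Z.ncard = tC G S T (cmR G S T v) := by
      unfold tC
      have : {d : G.Dart | d.fst ∈ T ∧ cmR G S T d.snd = cmR G S T v} = (fun d : G.Dart => d.symm) '' Z := by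
        ext d
        constructor
        · rintro ⟨h1, h2⟩
          refine ⟨d.symm, ?_, d.symm_symm⟩
          rw [hZ]
          exact ⟨h2, h1⟩
        · rintro ⟨e, he, rfl⟩
          rw [hZ] at he
          exact ⟨he.2, he.1⟩
      rw [this, Set.ncard_image_of_injective]
      intro a b h
      rw [← a.symm_symm, ← b.symm_symm]
      exact congrArg _ h
    have hev : Even (K \ (Sum.inr '' Z)).ncard := by
      refine even_ncard_of_inv _ (fun x => match x with
        | Sum.inl (w, b) => Sum.inl (w, !b)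
        | Sum.inr d => Sum.inr d.symm) ?_ ?_ ?_
      · rintro (⟨w, b⟩ | d) ⟨hx, hxZ⟩
        · refine ⟨(hk1 w _).2 ((hk1 w b).1 hx), ?_⟩
          rintro ⟨d, _, h⟩
          exact absurd h (by simp)
        · have h1 := (hk2 d).1 hx
          have h2 : d ∉ Z := fun h => hxZ ⟨d, h, rfl⟩
          refine ⟨(hk2 d.symm).2 ?_, ?_⟩
          · rcases h1 with h1 | h1
            · have h3 : d.snd ∉ T := fun h => h2 (by rw [hZ]; exact ⟨h1, h⟩)
              by_cases h4 : d.snd ∈ S
              · right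
                exact ⟨h4, h1⟩
              · left
                change cmR G S T d.snd = _
                rw [← h1]
                refine SimpleGraph.ConnectedComponent.eq.2 (SimpleGraph.Adj.reachable ?_)
                exact ⟨d.adj.symm, ⟨h4, h3⟩, hR _ h1⟩
            · left
              exact h1.2
          · rintro ⟨e, he, h5⟩
            have h6 : e = d.symm := Sum.inr_injective h5
            rw [hZ, h6] at he
            have h7 : d.fst ∈ T := he.2
            rcases h1 with h1 | h1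
            · exact (hR _ h1).2 h7
            · exact hdisj _ h7 h1.1
      · rintro (⟨w, b⟩ | d) _
        · simp
        · simp
      · rintro (⟨w, b⟩ | d) _
        · simp
        · intro h
          exact d.symm_ne (Sum.inr_injective h)
    have hc := Set.ncard_sdiff_add_ncard_of_subset hZK
    rw [Set.ncard_image_of_injective _ Sum.inr_injective, hZc] at hc
    have hodd := hK.2
    rw [← hc] at hodd
    rcases Nat.even_or_odd (tC G S T (cmR G S T v)) with he | ho
    · exact absurd (hev.add he) (Nat.not_even_iff_odd.2 hodd)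
    · exact ho
  refine ⟨S, T, ?_, hTind, ?_, ?_, ?_⟩
  · rw [Set.disjoint_left]
    exact fun v hS' hT' => hdisj v hT' hS'
  · intro d d' hdd hdT h1 h2 hcm
    obtain ⟨K, hK, hdK⟩ := (hS4 _ hdT).1 d rfl
    have h3 : d.snd ∉ T := hTind d hdT
    have h4 : Sum.inl (d.snd, false) ∈ K := hK.1.2.2.2 _ hdK _ (by rw [fS]; exact h1) (gad_rl.2 rfl)
    obtain ⟨_, hk2⟩ := hKC K hK d.snd h1 h3 h4
    refine (hS4 _ hdT).2 d d' rfl hdd.symm K hK hdK ((hk2 d'.symm).2 (Or.inl hcm.symm))
  · intro d hdT h1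
    obtain ⟨K, hK, hdK⟩ := (hS4 _ hdT).1 d rfl
    have h3 : d.snd ∉ T := hTind d hdT
    have h4 : Sum.inl (d.snd, false) ∈ K := hK.1.2.2.2 _ hdK _ (by rw [fS]; exact h1) (gad_rl.2 rfl)
    exact ⟨⟨d.snd, h1, h3, rfl⟩, hpar K hK d.snd h1 h3 h4⟩
  · -- counting
    obtain ⟨A3, hA3⟩ : ∃ A3 : Set (Set (GW G)), A3 = {K | K ∈ OddC (gad G) U ∧ ∃ v, v ∉ S ∧ v ∉ T ∧ Sum.inl (v, false) ∈ K} :=
      ⟨_, rfl⟩
    have hUc : U.ncard = 2 * S.ncard + {d : G.Dart | d.fst ∈ T}.ncard := by
      have h1 : U = (Sum.inl '' (S ×ˢ (Set.univ : Set Bool))) ∪ (Sum.inr '' {d : G.Dart | d.fst ∈ T}) := by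
        ext x
        rcases x with ⟨v, b⟩ | d
        · rw [fS]
          constructor
          · intro h; left; exact ⟨(v, b), ⟨h, trivial⟩, rfl⟩
          · rintro (⟨⟨w, c⟩, ⟨h, _⟩, h2⟩ | ⟨d, _, h2⟩)
            · have := Sum.inl_injective h2
              rw [Prod.mk.injEq] at this
              rw [← this.1]; exact h
            · exact absurd h2 (by simp)
        · rw [fT]
          constructor
          · intro h; right; exact ⟨d, h, rfl⟩
          · rintro (⟨⟨w, c⟩, _, h2⟩ | ⟨d', h, h2⟩)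
            · exact absurd h2 (by simp)
            · rw [← Sum.inr_injective h2]; exact h
      rw [h1, Set.ncard_union_eq, Set.ncard_image_of_injective _ Sum.inl_injective,
        Set.ncard_image_of_injective _ Sum.inr_injective, Set.ncard_prod, Set.ncard_univ]
      · simp [mul_comm]
      · rw [Set.disjoint_left]
        rintro _ ⟨a, _, rfl⟩ ⟨d, _, h⟩
        exact absurd h (by simp)
    have hsub : OddC (gad G) U ⊆ ((fun p : V × Bool => ({Sum.inl p} : Set (GW G))) '' (T ×ˢ (Set.univ : Set Bool))) ∪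
        ((fun d : G.Dart => ({Sum.inr d} : Set (GW G))) '' {d : G.Dart | d.fst ∈ S ∧ d.snd ∈ T}) ∪ A3 := by
      intro K hK
      have hRcase : ∀ v b, v ∉ S → v ∉ T → Sum.inl (v, b) ∈ K → K ∈ A3 := by
        intro v b hvS hvT hv
        obtain ⟨d, hd⟩ := hdeg v
        have h1 : Sum.inr d ∈ K := hK.1.2.2.2 _ hv _ (by rw [fT, hd]; exact hvT) (gad_lr.2 hd)
        rw [hA3]
        exact ⟨hK, v, hvS, hvT, hK.1.2.2.2 _ h1 _ (by rw [fS]; exact hvS) (gad_rl.2 hd)⟩
      obtain ⟨x, hx⟩ := hK.1.1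
      have hxU := hnotU K hK x hx
      rcases x with ⟨v, b⟩ | d
      · rw [fS] at hxU
        by_cases hvT : v ∈ T
        · left; left
          exact ⟨(v, b), ⟨hvT, trivial⟩, (hclT K hK v b hvT hx).symm⟩
        · right
          exact hRcase v b hxU hvT hx
      · rw [fT] at hxU
        by_cases hdS : d.fst ∈ S
        · by_cases hsT : d.snd ∈ T
          · left; right
            refine ⟨d, ⟨hdS, hsT⟩, ?_⟩
            change ({Sum.inr d} : Set (GW G)) = K
            refine (Set.Subset.antisymm (hK.1.2.2.1 {Sum.inr d} ?_ ⟨_, hx, rfl⟩) (Set.singleton_subset_iff.2 hx)).symm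
            intro x' hx' y hy hxy
            rw [Set.mem_singleton_iff] at hx'
            subst hx'
            exfalso
            rcases y with ⟨a, b⟩ | e
            · have h1 : d.fst = a := gad_rl.1 hxy
              rw [fS, ← h1] at hy
              exact hy hdS
            · have h1 : e = d.symm := gad_rr.1 hxy
              rw [fT, h1] at hy
              exact hy hsT
          · have hs : Sum.inr d.symm ∈ K := hK.1.2.2.2 _ hx _ (by rw [fT]; exact hsT) (gad_rr.2 rfl)
            by_cases hsS : d.snd ∈ S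
            · exfalso
              have hKA : K = {Sum.inr d, Sum.inr d.symm} := by
                refine Set.Subset.antisymm (hK.1.2.2.1 _ ?_ ⟨_, hx, Set.mem_insert _ _⟩) ?_
                · intro x' hx' y hy hxy
                  rcases hx' with rfl | hx'
                  · rcases y with ⟨a, b⟩ | e
                    · exfalso
                      have h1 : d.fst = a := gad_rl.1 hxy
                      rw [fS, ← h1] at hy
                      exact hy hdS
                    · rw [gad_rr.1 hxy]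
                      exact Set.mem_insert_of_mem _ rfl
                  · rw [Set.mem_singleton_iff] at hx'
                    subst hx'
                    rcases y with ⟨a, b⟩ | e
                    · exfalso
                      have h1 : d.symm.fst = a := gad_rl.1 hxy
                      rw [fS, ← h1] at hy
                      exact hy hsS
                    · rw [gad_rr.1 hxy, SimpleGraph.Dart.symm_symm]
                      exact Set.mem_insert _ _
                · intro z hz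
                  rcases hz with rfl | hz
                  · exact hx
                  · rw [Set.mem_singleton_iff] at hz
                    rw [hz]; exact hs
              have hodd := hK.2
              rw [hKA, Set.ncard_pair] at hodd
              · exact absurd hodd (by decide)
              · intro h
                exact d.symm_ne (Sum.inr_injective h).symm
            · right
              exact hRcase d.snd false hsS hsT (hK.1.2.2.2 _ hs _ (by rw [fS]; exact hsS) (gad_rl.2 rfl))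
        · right
          exact hRcase d.fst false hdS hxU (hK.1.2.2.2 _ hx _ (by rw [fS]; exact hdS) (gad_rl.2 rfl))
    have hc1 : (OddC (gad G) U).ncard ≤ 2 * T.ncard + {d : G.Dart | d.fst ∈ S ∧ d.snd ∈ T}.ncard + A3.ncard := by
      have a0 := Set.ncard_le_ncard hsub
      have a1 := Set.ncard_union_le (((fun p : V × Bool => ({Sum.inl p} : Set (GW G))) '' (T ×ˢ (Set.univ : Set Bool))) ∪
        ((fun d : G.Dart => ({Sum.inr d} : Set (GW G))) '' {d : G.Dart | d.fst ∈ S ∧ d.snd ∈ T})) A3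
      have a2 := Set.ncard_union_le ((fun p : V × Bool => ({Sum.inl p} : Set (GW G))) '' (T ×ˢ (Set.univ : Set Bool)))
        ((fun d : G.Dart => ({Sum.inr d} : Set (GW G))) '' {d : G.Dart | d.fst ∈ S ∧ d.snd ∈ T})
      have a3 := Set.ncard_image_le (f := fun p : V × Bool => ({Sum.inl p} : Set (GW G))) (Set.toFinite (T ×ˢ (Set.univ : Set Bool)))
      have a4 := Set.ncard_image_le (f := fun d : G.Dart => ({Sum.inr d} : Set (GW G))) (Set.toFinite {d : G.Dart | d.fst ∈ S ∧ d.snd ∈ T})
      have a5 : (T ×ˢ (Set.univ : Set Bool)).ncard = 2 * T.ncard := by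
        rw [Set.ncard_prod, Set.ncard_univ]
        simp [mul_comm]
      omega
    have hc2 : {d : G.Dart | d.fst ∈ T}.ncard = {d : G.Dart | d.fst ∈ T ∧ d.snd ∉ S}.ncard + {d : G.Dart | d.fst ∈ S ∧ d.snd ∈ T}.ncard := by
      have h1 : {d : G.Dart | d.fst ∈ T} = {d : G.Dart | d.fst ∈ T ∧ d.snd ∉ S} ∪ {d : G.Dart | d.fst ∈ T ∧ d.snd ∈ S} := by
        ext d
        simp only [Set.mem_ofPred_eq, Set.mem_union]
        tauto
      have h2 : {d : G.Dart | d.fst ∈ S ∧ d.snd ∈ T} = (fun d : G.Dart => d.symm) '' {d : G.Dart | d.fst ∈ T ∧ d.snd ∈ S} := by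
        ext d
        constructor
        · rintro ⟨h1, h2⟩
          exact ⟨d.symm, ⟨h2, h1⟩, d.symm_symm⟩
        · rintro ⟨e, he, rfl⟩
          exact ⟨he.2, he.1⟩
      rw [h2, Set.ncard_image_of_injective, h1, Set.ncard_union_eq]
      · rw [Set.disjoint_left]
        rintro d ⟨_, h⟩ ⟨_, h'⟩
        exact h h'
      · intro a b h
        rw [← a.symm_symm, ← b.symm_symm]
        exact congrArg _ h
    have hc3 : A3.ncard ≤ (oddR G S T).ncard := by
      have hch : ∀ K ∈ A3, ∃ v, v ∉ S ∧ v ∉ T ∧ Sum.inl (v, false) ∈ K := fun K hK => by rw [hA3] at hK; exact hK.2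
      have hod : ∀ K ∈ A3, K ∈ OddC (gad G) U := fun K hK => by rw [hA3] at hK; exact hK.1
      by_cases hVne : Nonempty V
      · choose! ν hν using hch
        refine Set.ncard_le_ncard_of_injOn (fun K => cmR G S T (ν K)) ?_ ?_
        · intro K hK
          obtain ⟨h1, h2, h3⟩ := hν K hK
          exact ⟨⟨ν K, h1, h2, rfl⟩, hpar K (hod K hK) _ h1 h2 h3⟩
        · intro K hK K' hK' h
          obtain ⟨h1, h2, h3⟩ := hν K hK
          obtain ⟨h1', h2', h3'⟩ := hν K' hK'
          have k1 := (hKC K (hod K hK) _ h1 h2 h3).1 (ν K') false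
          exact comp_eq (hod K hK).1 (hod K' hK').1 (k1.2 h.symm) h3'
      · have : A3 = ∅ := by
          rw [Set.eq_empty_iff_forall_notMem]
          intro K hK
          obtain ⟨v, _⟩ := hch K hK
          exact hVne ⟨v⟩
        rw [this, Set.ncard_empty]
        exact Nat.zero_le _
    omega

end Pool.Agent.H41.TF
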