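import Mathlib

/-!
# Minimal Tutte violators  (MP_d78700_co)
-/

set_option autoImplicit false

namespace Pool.Agent.H41.TF

variable {W : Type*}

/-- `K` is the vertex set of a component of `Γ - U` -/
def IsComp (Γ : SimpleGraph W) (U K : Set W) : Prop :=
  K.Nonempty ∧ Disjoint K U ∧
    (∀ A : Set W, (∀ x ∈ A, ∀ y, y ∉ U → Γ.Adj x y → y ∈ A) → (K ∩ A).Nonempty → K ⊆ A) ∧
    (∀ x ∈ K, ∀ y, y ∉ U → Γ.Adj x y → y ∈ K)

/-- the odd components of `Γ - U` -/
def OddC (Γ : SimpleGraph W) (U : Set W) : Set (Set W) := {K | IsComp Γ U K ∧ Odd K.ncard}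

/-- the graph `Γ - U` -/
abbrev delG (Γ : SimpleGraph W) (U : Set W) := ((⊤ : Γ.Subgraph).deleteVerts U).coe

theorem delG_adj (Γ : SimpleGraph W) (U : Set W) (x y : ((⊤ : Γ.Subgraph).deleteVerts U).verts) :
    (delG Γ U).Adj x y ↔ Γ.Adj x.1 y.1 := by
  have hx : x.1 ∈ (⊤ : Γ.Subgraph).verts \ U := x.2
  have hy : y.1 ∈ (⊤ : Γ.Subgraph).verts \ U := y.2
  simp only [delG, SimpleGraph.Subgraph.coe_adj, SimpleGraph.Subgraph.deleteVerts_adj,
    SimpleGraph.Subgraph.verts_top, Set.mem_univ, SimpleGraph.Subgraph.top_adj, true_and]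
  exact ⟨fun h => h.2.2, fun h => ⟨hx.2, hy.2, h⟩⟩

theorem mem_verts (Γ : SimpleGraph W) (U : Set W) (x : W) :
    x ∈ ((⊤ : Γ.Subgraph).deleteVerts U).verts ↔ x ∉ U := by
  rw [SimpleGraph.Subgraph.deleteVerts_verts]
  simp

theorem reach_closed (Γ : SimpleGraph W) (U : Set W) (A : Set W)
    (hA : ∀ x ∈ A, ∀ y, y ∉ U → Γ.Adj x y → y ∈ A) (x y : ((⊤ : Γ.Subgraph).deleteVerts U).verts)
    (h : (delG Γ U).Reachable x y) (hx : x.1 ∈ A) : y.1 ∈ A := by
  obtain ⟨p⟩ := h
  induction p with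
  | nil => exact hx
  | @cons u v w hadj q ih =>
    exact ih (hA _ hx _ ((mem_verts Γ U _).1 v.2) ((delG_adj Γ U _ _).1 hadj))

theorem isComp_supp (Γ : SimpleGraph W) (U : Set W) (c : (delG Γ U).ConnectedComponent) :
    IsComp Γ U (Subtype.val '' c.supp) := by
  refine ⟨c.nonempty_supp.image _, ?_, ?_, ?_⟩
  · rw [Set.disjoint_left]
    rintro _ ⟨x, _, rfl⟩
    exact (mem_verts Γ U _).1 x.2
  · rintro A hA ⟨_, ⟨x, hx, rfl⟩, hxA⟩
    rintro _ ⟨y, hy, rfl⟩
    have hxy : (delG Γ U).Reachable x y := by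
      rw [← SimpleGraph.ConnectedComponent.eq]
      rw [SimpleGraph.ConnectedComponent.mem_supp_iff] at hx hy
      rw [hx, hy]
    exact reach_closed Γ U A hA x y hxy hxA
  · rintro _ ⟨x, hx, rfl⟩ y hy hxy
    refine ⟨⟨y, (mem_verts Γ U y).2 hy⟩, ?_, rfl⟩
    rw [SimpleGraph.ConnectedComponent.mem_supp_iff] at hx ⊢
    rw [← hx, SimpleGraph.ConnectedComponent.eq]
    exact ((delG_adj Γ U x ⟨y, (mem_verts Γ U y).2 hy⟩).2 hxy).symm.reachable

theorem exists_supp (Γ : SimpleGraph W) (U K : Set W) (hK : IsComp Γ U K) :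
    ∃ c : (delG Γ U).ConnectedComponent, Subtype.val '' c.supp = K := by
  obtain ⟨x, hx⟩ := hK.1
  have hxU : x ∉ U := fun h => Set.disjoint_left.1 hK.2.1 hx h
  have hmem : x ∈ (Subtype.val '' ((delG Γ U).connectedComponentMk ⟨x, (mem_verts Γ U x).2 hxU⟩).supp : Set W) :=
    ⟨⟨x, (mem_verts Γ U x).2 hxU⟩, by rw [SimpleGraph.ConnectedComponent.mem_supp_iff], rfl⟩
  refine ⟨(delG Γ U).connectedComponentMk ⟨x, (mem_verts Γ U x).2 hxU⟩, Set.Subset.antisymm ?_ ?_⟩
  · exact (isComp_supp Γ U _).2.2.1 K hK.2.2.2 ⟨x, hmem, hx⟩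
  · exact hK.2.2.1 _ (isComp_supp Γ U _).2.2.2 ⟨x, hx, hmem⟩

theorem oddC_ncard (Γ : SimpleGraph W) (U : Set W) :
    (OddC Γ U).ncard = (delG Γ U).oddComponents.ncard := by
  have hinj : Function.Injective fun c : (delG Γ U).ConnectedComponent => (Subtype.val '' c.supp : Set W) := by
    intro a b h
    exact SimpleGraph.ConnectedComponent.supp_injective (Set.image_injective.2 Subtype.val_injective h)
  have : OddC Γ U = (fun c : (delG Γ U).ConnectedComponent => (Subtype.val '' c.supp : Set W)) ''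
      (delG Γ U).oddComponents := by
    ext K
    constructor
    · rintro ⟨hK, hodd⟩
      obtain ⟨c, rfl⟩ := exists_supp Γ U K hK
      refine ⟨c, ?_, rfl⟩
      rw [Set.ncard_image_of_injective _ Subtype.val_injective] at hodd
      exact hodd
    · rintro ⟨c, hc, rfl⟩
      refine ⟨isComp_supp Γ U c, ?_⟩
      rw [Set.ncard_image_of_injective _ Subtype.val_injective]
      exact hc
  rw [this, Set.ncard_image_of_injective _ hinj]

theorem odd_oddC [Finite W] (Γ : SimpleGraph W) (hW : Even (Nat.card W)) (U : Set W) :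
    Odd (OddC Γ U).ncard ↔ Odd U.ncard := by
  rw [oddC_ncard, SimpleGraph.odd_ncard_oddComponents]
  have h1 : Nat.card ((⊤ : Γ.Subgraph).deleteVerts U).verts + U.ncard = Nat.card W := by
    have : ((⊤ : Γ.Subgraph).deleteVerts U).verts = Uᶜ := by
      ext x
      rw [mem_verts]
      rfl
    rw [this, Nat.card_coe_set_eq]
    have := Set.ncard_add_ncard_compl U
    omega
  rcases Nat.even_or_odd U.ncard with h | h
  · constructor
    · intro ho
      exfalso
      have := ho.add_even h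
      rw [h1] at this
      exact (Nat.not_even_iff_odd.2 this) hW
    · intro ho
      exact absurd h (Nat.not_even_iff_odd.2 ho)
  · constructor
    · intro _; exact h
    · intro _
      rcases Nat.even_or_odd (Nat.card ((⊤ : Γ.Subgraph).deleteVerts U).verts) with he | he
      · exfalso
        have := he.add_odd h
        rw [h1] at this
        exact (Nat.not_even_iff_odd.2 this) hW
      · exact he

/-- adjacent odd components of a set `X` -/
def AdjC (Γ : SimpleGraph W) (U X : Set W) : Set (Set W) := {K | K ∈ OddC Γ U ∧ ∃ x ∈ X, ∃ y ∈ K, Γ.Adj x y}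

theorem oddC_diff (Γ : SimpleGraph W) (U X : Set W) : OddC Γ U \ AdjC Γ U X ⊆ OddC Γ (U \ X) := by
  rintro K ⟨hK, hna⟩
  refine ⟨⟨hK.1.1, ?_, ?_, ?_⟩, hK.2⟩
  · exact hK.1.2.1.mono_right Set.sdiff_subset
  · intro A hA hne
    exact hK.1.2.2.1 A (fun x hx y hy => hA x hx y fun h => hy h.1) hne
  · intro x hx y hy hxy
    by_cases hyU : y ∈ U
    · have hyX : y ∈ X := by
        by_contra h
        exact hy ⟨hyU, h⟩
      exact absurd ⟨hK, y, hyX, x, hx, hxy.symm⟩ hna
    · exact hK.1.2.2.2 x hx y hyU hxy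

/-- a minimal violator -/
theorem exists_min_violator [Finite W] (Γ : SimpleGraph W) (hW : Even (Nat.card W))
    (hM : ∀ M : Γ.Subgraph, ¬ M.IsPerfectMatching) :
    ∃ U : Set W, U.ncard + 2 ≤ (OddC Γ U).ncard ∧
      ∀ X ⊆ U, X.Nonempty → X.ncard + 2 ≤ (AdjC Γ U X).ncard := by
  classical
  have hviol : ∃ n, ∃ U : Set W, U.ncard = n ∧ U.ncard < (OddC Γ U).ncard := by
    by_contra hcon
    push Not at hcon
    have : ∃ M : Γ.Subgraph, M.IsPerfectMatching := by
      rw [SimpleGraph.tutte]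
      intro U hU
      unfold SimpleGraph.IsTutteViolator at hU
      have := hcon U.ncard U rfl
      rw [oddC_ncard] at this
      exact absurd hU (not_lt.2 this)
    obtain ⟨M, hM'⟩ := this
    exact hM M hM'
  obtain ⟨U, hU1, hU2⟩ := Nat.find_spec hviol
  have hmin := fun m (hm : m < Nat.find hviol) => Nat.find_min hviol hm
  have hpar : U.ncard + 2 ≤ (OddC Γ U).ncard := by
    have := odd_oddC Γ hW U
    rcases Nat.even_or_odd U.ncard with h | h
    · have h2 : ¬ Odd (OddC Γ U).ncard := fun h' => (Nat.not_even_iff_odd.2 (this.1 h')) h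
      rw [Nat.not_odd_iff_even] at h2
      obtain ⟨a, ha⟩ := h
      obtain ⟨b, hb⟩ := h2
      omega
    · obtain ⟨b, hb⟩ := this.2 h
      obtain ⟨a, ha⟩ := h
      omega
  refine ⟨U, hpar, fun X hX hXne => ?_⟩
  have hc1 : (U \ X).ncard + X.ncard = U.ncard := Set.ncard_sdiff_add_ncard_of_subset hX
  have hXpos : 0 < X.ncard := (Set.ncard_pos).2 hXne
  have hlt : (U \ X).ncard < Nat.find hviol := by
    rw [← hU1]
    omega
  have h3 := hmin _ hlt
  push Not at h3
  have h4 := h3 (U \ X) rfl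
  have h5 : (OddC Γ U).ncard ≤ (AdjC Γ U X).ncard + (OddC Γ (U \ X)).ncard := by
    have : OddC Γ U ⊆ AdjC Γ U X ∪ OddC Γ (U \ X) := by
      intro K hK
      by_cases h : K ∈ AdjC Γ U X
      · exact Or.inl h
      · exact Or.inr (oddC_diff Γ U X ⟨hK, h⟩)
    exact (Set.ncard_le_ncard this).trans (Set.ncard_union_le _ _)
  omega

end Pool.Agent.H41.TF
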